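import Mathlib

/-!
Two perfect matchings have a common transversal set (every cycle of their union is even), and the
packing of common bases of strongly base orderable matroids (two bases).
-/

namespace H12.SBO

open Equiv.Perm

variable {V : Type*}

/-- Two fixed point free involutions on `W` exchange some set with its complement. -/
theorem two_colour {m₁ m₂ : V → V} (h₁ : Function.Involutive m₁) (h₂ : Function.Involutive m₂)
    {W : Set V} (w₁ : ∀ v ∈ W, m₁ v ∈ W ∧ m₁ v ≠ v) (w₂ : ∀ v ∈ W, m₂ v ∈ W ∧ m₂ v ≠ v) :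
    ∃ R : Set V, ∀ v ∈ W, (v ∈ R ↔ m₁ v ∉ R) ∧ (v ∈ R ↔ m₂ v ∉ R) := by
  set e₁ : Equiv.Perm V := h₁.toPerm with he₁
  set e₂ : Equiv.Perm V := h₂.toPerm with he₂
  have a₁ : ∀ v, e₁ v = m₁ v := fun v => rfl
  have a₂ : ∀ v, e₂ v = m₂ v := fun v => rfl
  set τ : Equiv.Perm V := e₁ * e₂ with hτ
  have i₁ : e₁⁻¹ = e₁ := by
    ext v; rw [Equiv.Perm.inv_eq_iff_eq, a₁, a₁, h₁ v]
  have i₂ : e₂⁻¹ = e₂ := by
    ext v; rw [Equiv.Perm.inv_eq_iff_eq, a₂, a₂, h₂ v]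
  have c1 : e₁ * τ * e₁⁻¹ = τ⁻¹ := by
    rw [hτ, mul_inv_rev, i₂, i₁, ← mul_assoc]
    have : e₁ * e₁ = 1 := by
      nth_rewrite 1 [← i₁]; simp
    rw [this, one_mul]
  have ck : ∀ (k : ℤ) (v : V), e₁ ((τ ^ k) v) = (τ ^ (-k)) (e₁ v) := by
    intro k v
    have h3 : e₁ * τ ^ k * e₁⁻¹ = τ ^ (-k) := by
      rw [← conj_zpow, c1, inv_zpow, zpow_neg]
    rw [← h3]
    simp
  have hW : ∀ (k : ℤ) (v : V), v ∈ W → (τ ^ k) v ∈ W := by
    intro k
    induction k using Int.induction_on with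
    | zero => intro v hv; simpa using hv
    | succ i ih =>
      intro v hv
      rw [add_comm, zpow_add, zpow_one, Equiv.Perm.mul_apply]
      have h3 := ih v hv
      rw [hτ, Equiv.Perm.mul_apply, a₁, a₂]
      exact (w₁ _ (w₂ _ h3).1).1
    | pred i ih =>
      intro v hv
      rw [sub_eq_add_neg, add_comm, zpow_add, zpow_neg_one, Equiv.Perm.mul_apply]
      have h3 := ih v hv
      rw [hτ, mul_inv_rev, i₁, i₂, Equiv.Perm.mul_apply, a₁, a₂]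
      exact (w₂ _ (w₁ _ h3).1).1
  -- `v` and `m₁ v` lie in different cycles
  have key : ∀ v ∈ W, ¬ SameCycle τ v (m₁ v) := by
    rintro v hv ⟨k, hk⟩
    rw [← a₁] at hk
    obtain ⟨j, rfl | rfl⟩ := Int.even_or_odd' k
    · rw [two_mul, zpow_add, Equiv.Perm.mul_apply] at hk
      have h3 : e₁ ((τ ^ j) v) = (τ ^ j) v := by
        rw [ck, ← hk, ← Equiv.Perm.mul_apply, ← zpow_add]; simp
      exact (w₁ _ (hW j v hv)).2 h3
    · rw [show 2 * j + 1 = j + (1 + j) by ring, zpow_add, zpow_add, Equiv.Perm.mul_apply,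
        Equiv.Perm.mul_apply, zpow_one] at hk
      have h3 : e₁ ((τ ^ j) v) = τ ((τ ^ j) v) := by
        rw [ck, ← hk, ← Equiv.Perm.mul_apply, ← zpow_add]; simp
      rw [hτ, Equiv.Perm.mul_apply] at h3
      have h4 := e₁.injective h3
      exact (w₂ _ (hW j v hv)).2 h4.symm
  have F1 : ∀ x y, SameCycle τ x y → SameCycle τ (m₁ x) (m₁ y) := by
    rintro x y ⟨k, rfl⟩
    exact ⟨-k, by rw [← a₁, ← a₁, ck]⟩
  -- the components
  let s : Setoid V := {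
    r := fun x y => SameCycle τ x y ∨ SameCycle τ (m₁ x) y
    iseqv := {
      refl := fun x => Or.inl (SameCycle.refl _ _)
      symm := by
        rintro x y (h | h)
        · exact Or.inl h.symm
        · right
          have h3 := F1 _ _ h
          rw [h₁ x] at h3
          exact h3.symm
      trans := by
        rintro x y z (h | h) (h' | h')
        · exact Or.inl (h.trans h')
        · exact Or.inr ((F1 _ _ h).trans h')
        · exact Or.inr (h.trans h')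
        · left
          have h3 := F1 _ _ h
          rw [h₁ x] at h3
          exact h3.trans h' } }
  let rep : V → V := fun v => (Quotient.mk s v).out
  have hrep : ∀ v, SameCycle τ (rep v) v ∨ SameCycle τ (m₁ (rep v)) v := fun v =>
    Quotient.exact (Quotient.out_eq (Quotient.mk s v))
  have hrep2 : ∀ u v, SameCycle τ u v ∨ SameCycle τ (m₁ u) v → rep u = rep v := by
    intro u v huv
    have : Quotient.mk s u = Quotient.mk s v := Quotient.sound huv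
    show (Quotient.mk s u).out = (Quotient.mk s v).out
    rw [this]
  refine ⟨{v | SameCycle τ (rep v) v}, fun v hv => ?_⟩
  have P1 : ∀ v ∈ W, (SameCycle τ (rep v) v ↔ ¬ SameCycle τ (rep (m₁ v)) (m₁ v)) := by
    intro v hv
    have h3 : rep (m₁ v) = rep v := (hrep2 v (m₁ v) (Or.inr (SameCycle.refl _ _))).symm
    rw [h3]
    constructor
    · intro h4 h5
      exact key v hv (h4.symm.trans h5)
    · intro h4
      rcases hrep v with h5 | h5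
      · exact h5
      · exfalso
        apply h4
        have h6 := F1 _ _ h5
        rwa [h₁ (rep v)] at h6
  refine ⟨P1 v hv, ?_⟩
  -- the second involution
  have hτW : τ v ∈ W := by simpa using hW 1 v hv
  have h3 : m₂ v = m₁ (τ v) := by
    rw [hτ, Equiv.Perm.mul_apply, a₁, a₂, h₁]
  have h4 : rep v = rep (τ v) := hrep2 v (τ v) (Or.inl ⟨1, by simp⟩)
  have h5 : SameCycle τ (rep v) v ↔ SameCycle τ (rep (τ v)) (τ v) := by
    rw [← h4, sameCycle_apply_right]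
  show SameCycle τ (rep v) v ↔ ¬ SameCycle τ (rep (m₂ v)) (m₂ v)
  rw [h5, h3]
  exact P1 _ hτW

/-- strongly base orderable matroids -/
def StronglyBaseOrderable (M : Matroid V) : Prop :=
  ∀ B B' : Set V, M.IsBase B → M.IsBase B' →
    ∃ σ : V → V, Set.BijOn σ B B' ∧ ∀ X ⊆ B, M.IsBase ((B \ X) ∪ σ '' X)

/-- two bases of `M₁` and two bases of `M₂` with the same union and the same intersection can be
replaced by two common bases with this union and this intersection -/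
def Pack (M₁ M₂ : Matroid V) : Prop :=
  ∀ P₁ Q₁ P₂ Q₂ : Set V, M₁.IsBase P₁ → M₁.IsBase Q₁ → M₂.IsBase P₂ → M₂.IsBase Q₂ →
    P₁ ∩ Q₁ = P₂ ∩ Q₂ → P₁ ∪ Q₁ = P₂ ∪ Q₂ →
    ∃ R S : Set V, M₁.IsBase R ∧ M₁.IsBase S ∧ M₂.IsBase R ∧ M₂.IsBase S ∧
      R ∩ S = P₁ ∩ Q₁ ∧ R ∪ S = P₁ ∪ Q₁

theorem exch {M : Matroid V} (h : StronglyBaseOrderable M) {P Q : Set V} (hP : M.IsBase P) (hQ : M.IsBase Q) :
    ∃ m : V → V, Function.Involutive m ∧
      (∀ v ∈ (P \ Q) ∪ (Q \ P), m v ∈ (P \ Q) ∪ (Q \ P) ∧ m v ≠ v) ∧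
      ∀ R : Set V, (∀ v ∈ (P \ Q) ∪ (Q \ P), (v ∈ R ↔ m v ∉ R)) →
        M.IsBase ((P ∩ Q) ∪ (((P \ Q) ∪ (Q \ P)) ∩ R)) := by
  classical
  obtain ⟨σ, ⟨hmap, hinj, hsurj⟩, hσ⟩ := h P Q hP hQ
  have f1 : ∀ t ∈ P, σ t ∈ P → σ t = t := by
    intro t ht hs
    by_contra hne
    have h3 := hσ {t} (Set.singleton_subset_iff.2 ht)
    have h4 : (P \ {t}) ∪ σ '' {t} = P \ {t} := by
      rw [Set.image_singleton, Set.union_eq_left]
      exact Set.singleton_subset_iff.2 ⟨hs, hne⟩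
    rw [h4] at h3
    have h5 := h3.eq_of_subset_isBase hP Set.sdiff_subset
    have h6 : t ∉ P \ {t} := fun h7 => h7.2 rfl
    rw [h5] at h6
    exact h6 ht
  have f2 : ∀ t ∈ P \ Q, σ t ∈ Q \ P := by
    intro t ht
    refine ⟨hmap ht.1, fun h3 => ht.2 ?_⟩
    have h4 := f1 t ht.1 h3
    rw [← h4]
    exact hmap ht.1
  have f3 : ∀ s ∈ Q \ P, ∃ t ∈ P \ Q, σ t = s := by
    intro s hs
    obtain ⟨t, ht, rfl⟩ := hsurj hs.1
    refine ⟨t, ⟨ht, fun htQ => ?_⟩, rfl⟩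
    obtain ⟨t', ht', h3⟩ := hsurj htQ
    have h4 := f1 t' ht' (by rw [h3]; exact ht)
    rw [h3] at h4
    apply hs.2
    rw [← h4] at h3
    rw [h3]
    exact ht
  choose! ρ hρ1 hρ2 using f3
  have f4 : ∀ t ∈ P \ Q, ρ (σ t) = t := by
    intro t ht
    exact hinj (hρ1 _ (f2 t ht)).1 ht.1 (hρ2 _ (f2 t ht))
  set m : V → V := fun v => if v ∈ P \ Q then σ v else if v ∈ Q \ P then ρ v else v with hm
  have m1 : ∀ v ∈ P \ Q, m v = σ v := fun v hv => by simp only [hm]; rw [if_pos hv]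
  have m2 : ∀ v ∈ Q \ P, m v = ρ v := fun v hv => by
    simp only [hm]; rw [if_neg (fun h3 => hv.2 h3.1), if_pos hv]
  have m3 : ∀ v, v ∉ P \ Q → v ∉ Q \ P → m v = v := fun v hv hv' => by
    simp only [hm]; rw [if_neg hv, if_neg hv']
  refine ⟨m, ?_, ?_, ?_⟩
  · intro v
    by_cases h1 : v ∈ P \ Q
    · rw [m1 v h1, m2 _ (f2 v h1), f4 v h1]
    by_cases h2 : v ∈ Q \ P
    · rw [m2 v h2, m1 _ (hρ1 v h2), hρ2 v h2]
    rw [m3 v h1 h2, m3 v h1 h2]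
  · rintro v (hv | hv)
    · rw [m1 v hv]
      refine ⟨Or.inr (f2 v hv), fun h3 => ?_⟩
      have h4 := f2 v hv
      rw [h3] at h4
      exact h4.2 hv.1
    · rw [m2 v hv]
      refine ⟨Or.inl (hρ1 v hv), fun h3 => ?_⟩
      have h4 := hρ1 v hv
      rw [h3] at h4
      exact h4.2 hv.1
  · intro R hR
    have h3 := hσ ((P \ Q) \ R) (fun v hv => hv.1.1)
    convert h3 using 1
    ext v
    simp only [Set.mem_union, Set.mem_inter_iff, Set.mem_sdiff, Set.mem_image]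
    constructor
    · rintro (⟨hp, hq⟩ | ⟨⟨hp, hq⟩ | ⟨hq, hp⟩, hr⟩)
      · exact Or.inl ⟨hp, fun h4 => h4.1.2 hq⟩
      · exact Or.inl ⟨hp, fun h4 => h4.2 hr⟩
      · right
        have hv : v ∈ Q \ P := ⟨hq, hp⟩
        refine ⟨ρ v, ⟨hρ1 v hv, ?_⟩, hρ2 v hv⟩
        have h4 := (hR v (Or.inr hv)).1 hr
        rwa [m2 v hv] at h4
    · rintro (⟨hp, hx⟩ | ⟨t, ⟨ht, hr⟩, rfl⟩)
      · by_cases hq : v ∈ Q
        · exact Or.inl ⟨hp, hq⟩
        · right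
          refine ⟨Or.inl ⟨hp, hq⟩, ?_⟩
          by_contra hr
          exact hx ⟨⟨hp, hq⟩, hr⟩
      · right
        have h4 := f2 t ht
        refine ⟨Or.inr ⟨h4.1, h4.2⟩, ?_⟩
        by_contra hr2
        apply hr
        rw [hR t (Or.inl ht), m1 t ht]
        exact hr2

theorem pack_of_sbo {M₁ M₂ : Matroid V} (h₁ : StronglyBaseOrderable M₁) (h₂ : StronglyBaseOrderable M₂) : Pack M₁ M₂ := by
  intro P₁ Q₁ P₂ Q₂ hP₁ hQ₁ hP₂ hQ₂ hi hu
  have hW : (P₁ \ Q₁) ∪ (Q₁ \ P₁) = (P₂ \ Q₂) ∪ (Q₂ \ P₂) := by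
    have g : ∀ P Q : Set V, (P \ Q) ∪ (Q \ P) = (P ∪ Q) \ (P ∩ Q) := by
      intro P Q; ext v
      simp only [Set.mem_union, Set.mem_sdiff, Set.mem_inter_iff]; tauto
    rw [g, g, hi, hu]
  obtain ⟨m₁, i₁, w₁, e₁⟩ := exch h₁ hP₁ hQ₁
  obtain ⟨m₂, i₂, w₂, e₂⟩ := exch h₂ hP₂ hQ₂
  rw [← hW, ← hi] at e₂
  rw [← hW] at w₂
  set W := (P₁ \ Q₁) ∪ (Q₁ \ P₁) with hWd
  obtain ⟨R, hR⟩ := two_colour i₁ i₂ w₁ w₂
  have hR' : ∀ v ∈ W, (v ∈ Rᶜ ↔ m₁ v ∉ Rᶜ) ∧ (v ∈ Rᶜ ↔ m₂ v ∉ Rᶜ) := by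
    intro v hv
    obtain ⟨h3, h4⟩ := hR v hv
    simp only [Set.mem_compl_iff]
    constructor
    · rw [not_iff_not]; exact h3
    · rw [not_iff_not]; exact h4
  refine ⟨_, _, e₁ R fun v hv => (hR v hv).1, e₁ Rᶜ fun v hv => (hR' v hv).1,
    e₂ R fun v hv => (hR v hv).2, e₂ Rᶜ fun v hv => (hR' v hv).2, ?_, ?_⟩
  · ext v
    simp only [Set.mem_inter_iff, Set.mem_union, Set.mem_compl_iff]
    tauto
  · ext v
    simp only [hWd, Set.mem_inter_iff, Set.mem_union, Set.mem_compl_iff, Set.mem_sdiff]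
    tauto

theorem pack_of_subset {M₁ M₂ : Matroid V} (h : ∀ B, M₁.IsBase B → M₂.IsBase B) : Pack M₁ M₂ :=
  fun P₁ Q₁ _ _ hP₁ hQ₁ _ _ _ _ => ⟨P₁, Q₁, hP₁, hQ₁, h _ hP₁, h _ hQ₁, rfl, rfl⟩

theorem Pack.symm {M₁ M₂ : Matroid V} (h : Pack M₁ M₂) : Pack M₂ M₁ := by
  intro P₁ Q₁ P₂ Q₂ hP₁ hQ₁ hP₂ hQ₂ hi hu
  obtain ⟨R, S, h1, h2, h3, h4, h5, h6⟩ := h P₂ Q₂ P₁ Q₁ hP₂ hQ₂ hP₁ hQ₁ hi.symm hu.symm
  exact ⟨R, S, h3, h4, h1, h2, h5.trans hi.symm, h6.trans hu.symm⟩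

end H12.SBO
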