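import Pool.Agent.H31.Frank.Flag
import Pool.Agent.H12.SBO.Colour

/-!
Integral points and vertices of the difference of two matroid base polytopes.
-/

namespace H12.SBO

open Finset H31.Frank

variable {V : Type*} [Fintype V] [DecidableEq V]

omit [Fintype V] in
/-- contraction of a set -/
theorem contractSet {r : Finset V → ℤ} (h : IsRk r) (A : Finset V) :
    IsRk fun X => r (A ∪ X) - r A where
  zero := by rw [union_empty]; ring
  mono := fun X Y hXY => by
    have := h.mono _ _ (union_subset_union_right (s := A) hXY)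
    linarith
  ins := fun e X => by
    have := h.ins e (A ∪ X)
    rw [union_insert]
    linarith
  sub := fun X Y => by
    have h1 := h.sub (A ∪ X) (A ∪ Y)
    have h2 : (A ∪ X) ∪ (A ∪ Y) = A ∪ (X ∪ Y) := by
      ext v; simp only [mem_union]; tauto
    have h3 : (A ∪ X) ∩ (A ∪ Y) = A ∪ (X ∩ Y) := by
      ext v; simp only [mem_union, mem_inter]; tauto
    rw [h2, h3] at h1
    linarith

/-- bases, through the rank function -/
def IsB (r : Finset V → ℤ) (B : Finset V) : Prop := r B = B.card ∧ r B = r univ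

/-- a common completion of `A` (to a base of the first matroid) and of `N` (to a base of the second
one) -/
def Compl (r₁ r₂ : Finset V → ℤ) (A N C : Finset V) : Prop :=
  C ⊆ (A ∪ N)ᶜ ∧ IsB r₁ (A ∪ C) ∧ IsB r₂ (N ∪ C)

/-- the inequalities defining the difference of the two base polytopes, at `χ_A - χ_N` -/
def Le (r₁ r₂ : Finset V → ℤ) (A N : Finset V) : Prop :=
  ∀ X : Finset V, ((X ∩ A).card : ℤ) - (X ∩ N).card ≤ r₁ X + r₂ Xᶜ - r₂ univ

structure Dat (r₁ r₂ : Finset V → ℤ) (A N : Finset V) : Prop where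
  h₁ : IsRk r₁
  h₂ : IsRk r₂
  hr : r₁ univ = r₂ univ
  hd : Disjoint A N
  hc : A.card = N.card
  le : Le r₁ r₂ A N

variable {r₁ r₂ : Finset V → ℤ} {A N : Finset V}

theorem Dat.le_univ₁ (D : Dat r₁ r₂ A N) (X : Finset V) : r₁ X ≤ r₁ univ :=
  D.h₁.mono _ _ (subset_univ _)

theorem Dat.le_univ₂ (D : Dat r₁ r₂ A N) (X : Finset V) : r₂ X ≤ r₂ univ :=
  D.h₂.mono _ _ (subset_univ _)

theorem Dat.rA (D : Dat r₁ r₂ A N) : r₁ A = A.card := by
  have h3 := D.le A
  rw [inter_self, disjoint_iff_inter_eq_empty.1 D.hd, card_empty] at h3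
  have h4 := D.le_univ₂ Aᶜ
  have h5 := D.h₁.le_card A
  push_cast at h3
  linarith

theorem Dat.rN (D : Dat r₁ r₂ A N) : r₂ N = N.card := by
  have h3 := D.le Nᶜ
  have e1 : Nᶜ ∩ A = A := by
    rw [inter_eq_right]
    intro v hv
    exact mem_compl.2 fun h4 => (disjoint_left.1 D.hd) hv h4
  have e2 : Nᶜ ∩ N = ∅ := by
    ext v; simp
  rw [e1, e2, card_empty, compl_compl, D.hc] at h3
  have h4 := D.le_univ₁ Nᶜ
  have h5 := D.h₂.le_card N
  have h6 := D.hr
  push_cast at h3
  linarith

theorem Dat.cardle (D : Dat r₁ r₂ A N) : (A.card : ℤ) ≤ r₁ univ := by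
  rw [← D.rA]; exact D.le_univ₁ A

theorem Dat.compl_eq (D : Dat r₁ r₂ A N) {X : Finset V} (hX : X ⊆ (A ∪ N)ᶜ) :
    (A ∪ X)ᶜ = N ∪ ((A ∪ N)ᶜ \ X) := by
  ext v
  have h3 : v ∈ A → v ∉ N := fun h4 h5 => (disjoint_left.1 D.hd) h4 h5
  have h4 : v ∈ X → v ∉ A ∧ v ∉ N := fun h5 => by
    have := hX h5
    simpa only [mem_compl, mem_union, not_or] using this
  simp only [mem_compl, mem_union, mem_sdiff]
  tauto

theorem Dat.inter₁ (D : Dat r₁ r₂ A N) {X : Finset V} (hX : X ⊆ (A ∪ N)ᶜ) :
    (((A ∪ X) ∩ A).card : ℤ) - ((A ∪ X) ∩ N).card = A.card := by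
  have e1 : (A ∪ X) ∩ A = A := inter_eq_right.2 subset_union_left
  have e2 : (A ∪ X) ∩ N = ∅ := by
    ext v
    have h3 : v ∈ A → v ∉ N := fun h4 h5 => (disjoint_left.1 D.hd) h4 h5
    have h4 : v ∈ X → v ∉ A ∧ v ∉ N := fun h5 => by
      have := hX h5
      simpa only [mem_compl, mem_union, not_or] using this
    simp only [mem_inter, mem_union, notMem_empty, iff_false]
    tauto
  rw [e1, e2, card_empty]; simp

/-- the inequality in the contracted form -/
theorem Dat.ge (D : Dat r₁ r₂ A N) {X : Finset V} (hX : X ⊆ (A ∪ N)ᶜ) :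
    r₁ univ - A.card ≤ (r₁ (A ∪ X) - r₁ A) + (r₂ (N ∪ ((A ∪ N)ᶜ \ X)) - r₂ N) := by
  have h3 := D.le (A ∪ X)
  rw [D.inter₁ hX, D.compl_eq hX] at h3
  have h4 := D.rA
  have h5 := D.rN
  have h6 := D.hr
  have h7 : (N.card : ℤ) = A.card := by rw [D.hc]
  linarith

/-- matroid intersection inside `E` -/
theorem Dat.inter_in (D : Dat r₁ r₂ A N) {E : Finset V} (hE : E ⊆ (A ∪ N)ᶜ)
    (h : ∀ X ⊆ E, r₁ univ - A.card ≤ (r₁ (A ∪ X) - r₁ A) + (r₂ (N ∪ (E \ X)) - r₂ N)) :
    ∃ C ⊆ E, Compl r₁ r₂ A N C := by
  obtain ⟨k, hk⟩ : ∃ k : ℕ, r₁ univ - A.card = k :=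
    ⟨(r₁ univ - A.card).toNat, (Int.toNat_of_nonneg (by linarith [D.cardle])).symm⟩
  obtain ⟨C, hC, hcard, h3, h4⟩ := inter E _ _ (contractSet D.h₁ A) (contractSet D.h₂ N) k
    (fun X hX => by rw [← hk]; exact h X hX)
  refine ⟨C, hC, hC.trans hE, ?_, ?_⟩
  · have h5 : Disjoint A C := disjoint_left.2 fun v hv hv2 => by
      have := hE (hC hv2)
      simp only [mem_compl, mem_union, not_or] at this
      exact this.1 hv
    have h6 : ((A ∪ C).card : ℤ) = A.card + k := by
      rw [card_union_of_disjoint h5, hcard]; push_cast; ring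
    have h7 := D.rA
    refine ⟨by rw [h6]; linarith, by linarith⟩
  · have h5 : Disjoint N C := disjoint_left.2 fun v hv hv2 => by
      have := hE (hC hv2)
      simp only [mem_compl, mem_union, not_or] at this
      exact this.2 hv
    have h6 : ((N ∪ C).card : ℤ) = N.card + k := by
      rw [card_union_of_disjoint h5, hcard]; push_cast; ring
    have h7 := D.rN
    have h8 : (N.card : ℤ) = A.card := by rw [D.hc]
    have h9 := D.hr
    refine ⟨by rw [h6]; linarith, by linarith⟩

theorem Dat.exists_compl (D : Dat r₁ r₂ A N) : ∃ C, Compl r₁ r₂ A N C := by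
  obtain ⟨C, _, hC⟩ := D.inter_in (Subset.refl _) fun X hX => D.ge hX
  exact ⟨C, hC⟩

/-- tight sets -/
def Tight (r₁ r₂ : Finset V → ℤ) (A N X : Finset V) : Prop :=
  ((X ∩ A).card : ℤ) - (X ∩ N).card = r₁ X + r₂ Xᶜ - r₂ univ

theorem Dat.tight (D : Dat r₁ r₂ A N) {X : Finset V} (hX : X ⊆ (A ∪ N)ᶜ)
    (h : (r₁ (A ∪ X) - r₁ A) + (r₂ (N ∪ ((A ∪ N)ᶜ \ X)) - r₂ N) ≤ r₁ univ - A.card) :
    Tight r₁ r₂ A N (A ∪ X) := by
  have h3 := D.ge hX
  unfold Tight
  rw [D.inter₁ hX, D.compl_eq hX]
  have h4 := D.rA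
  have h5 := D.rN
  have h6 := D.hr
  have h7 : (N.card : ℤ) = A.card := by rw [D.hc]
  linarith

/-- if the completion is unique then every element is the difference of two tight sets -/
theorem Dat.sep (D : Dat r₁ r₂ A N) (hu : ∀ C C', Compl r₁ r₂ A N C → Compl r₁ r₂ A N C' → C = C')
    (u : V) : ∃ T, u ∉ T ∧ Tight r₁ r₂ A N T ∧ Tight r₁ r₂ A N (insert u T) := by
  have hrA := D.rA
  have hrN := D.rN
  have hhr := D.hr
  have hcc : (N.card : ℤ) = A.card := by rw [D.hc]
  obtain ⟨C, hC⟩ := D.exists_compl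
  have hCd := hC.1
  by_cases huA : u ∈ A
  · -- `∅` and `{u}`
    have huN : u ∉ N := (disjoint_left.1 D.hd) huA
    refine ⟨∅, notMem_empty _, ?_, ?_⟩
    · unfold Tight
      simp [D.h₁.zero]
    · unfold Tight
      have e1 : (insert u ∅ : Finset V) ∩ A = {u} := by
        ext v; simp only [mem_inter, mem_insert, notMem_empty, or_false, mem_singleton]
        constructor
        · exact fun h => h.1
        · rintro rfl; exact ⟨rfl, huA⟩
      have e2 : (insert u ∅ : Finset V) ∩ N = ∅ := by
        ext v; simp only [mem_inter, mem_insert, notMem_empty, or_false, iff_false]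
        rintro ⟨rfl, h3⟩; exact huN h3
      rw [e1, e2, card_singleton, card_empty]
      have h3 : r₁ (insert u ∅) ≤ 1 := by
        have := D.h₁.ins u ∅
        rw [D.h₁.zero] at this; linarith
      have h4 : r₁ A ≤ r₁ (insert u ∅) + r₁ (A.erase u) := by
        have h5 := D.h₁.sub (insert u ∅) (A.erase u)
        have h6 : (insert u ∅ : Finset V) ∪ A.erase u = A := by
          ext v; simp only [mem_union, mem_insert, notMem_empty, or_false, mem_erase]
          constructor
          · rintro (rfl | h7)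
            · exact huA
            · exact h7.2
          · intro h7
            by_cases h8 : v = u
            · exact Or.inl h8
            · exact Or.inr ⟨h8, h7⟩
        rw [h6] at h5
        have := D.h₁.nonneg ((insert u ∅ : Finset V) ∩ A.erase u)
        linarith
      have h5 : r₁ (A.erase u) ≤ A.card - 1 := by
        have h6 := D.h₁.le_card (A.erase u)
        rw [card_erase_of_mem huA, Nat.cast_sub (card_pos.2 ⟨u, huA⟩)] at h6
        simpa using h6
      have h6 : r₂ (insert u ∅ : Finset V)ᶜ = r₂ univ := by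
        refine le_antisymm (D.le_univ₂ _) ?_
        rw [← hC.2.2.2]
        refine D.h₂.mono _ _ fun v hv => ?_
        simp only [mem_compl, mem_insert, notMem_empty, or_false]
        rintro rfl
        rcases mem_union.1 hv with h7 | h7
        · exact huN h7
        · have := hCd h7
          simp only [mem_compl, mem_union, not_or] at this
          exact this.1 huA
      rw [h6]
      push_cast
      linarith
  by_cases huN : u ∈ N
  · -- `V \ {u}` and `V`
    refine ⟨{u}ᶜ, by simp, ?_, ?_⟩
    · unfold Tight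
      rw [compl_compl]
      have e1 : ({u}ᶜ : Finset V) ∩ A = A := by
        rw [inter_eq_right]; intro v hv; simp only [mem_compl, mem_singleton]
        rintro rfl; exact huA hv
      have e2 : ({u}ᶜ : Finset V) ∩ N = N.erase u := by
        ext v; simp only [mem_inter, mem_compl, mem_singleton, mem_erase]
      rw [e1, e2, card_erase_of_mem huN, Nat.cast_sub (card_pos.2 ⟨u, huN⟩)]
      have h3 : r₂ {u} ≤ 1 := by
        have := D.h₂.le_card {u}
        rwa [card_singleton] at this
      have h4 : r₂ N ≤ r₂ {u} + r₂ (N.erase u) := by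
        have h5 := D.h₂.sub {u} (N.erase u)
        have h6 : ({u} : Finset V) ∪ N.erase u = N := by
          ext v; simp only [mem_union, mem_singleton, mem_erase]
          constructor
          · rintro (rfl | h7)
            · exact huN
            · exact h7.2
          · intro h7
            by_cases h8 : v = u
            · exact Or.inl h8
            · exact Or.inr ⟨h8, h7⟩
        rw [h6] at h5
        have := D.h₂.nonneg (({u} : Finset V) ∩ N.erase u)
        linarith
      have h5 : r₂ (N.erase u) ≤ N.card - 1 := by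
        have h6 := D.h₂.le_card (N.erase u)
        rw [card_erase_of_mem huN, Nat.cast_sub (card_pos.2 ⟨u, huN⟩)] at h6
        simpa using h6
      have h6 : r₁ ({u} : Finset V)ᶜ = r₁ univ := by
        refine le_antisymm (D.le_univ₁ _) ?_
        rw [← hC.2.1.2]
        refine D.h₁.mono _ _ fun v hv => ?_
        simp only [mem_compl, mem_singleton]
        rintro rfl
        rcases mem_union.1 hv with h7 | h7
        · exact huA h7
        · have := hCd h7
          simp only [mem_compl, mem_union, not_or] at this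
          exact this.2 huN
      rw [h6]
      push_cast
      linarith
    · have e1 : insert u ({u}ᶜ : Finset V) = univ := by
        ext v; simp only [mem_insert, mem_compl, mem_singleton, mem_univ, iff_true]
        exact em _
      rw [e1]
      unfold Tight
      rw [univ_inter, univ_inter, compl_univ, D.h₂.zero]
      linarith
  -- `u` in the zero set
  have huZ : u ∈ (A ∪ N)ᶜ := by simp [huA, huN]
  set Z := (A ∪ N)ᶜ with hZ
  have hEZ : Z.erase u ⊆ Z := erase_subset _ _
  have huE : u ∉ Z.erase u := notMem_erase _ _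
  have fin : ∀ X ⊆ Z.erase u,
      (r₁ (A ∪ X) - r₁ A) + (r₂ (N ∪ (Z \ X)) - r₂ N) ≤ r₁ univ - A.card →
      (r₁ (A ∪ insert u X) - r₁ A) + (r₂ (N ∪ (Z \ insert u X)) - r₂ N) ≤ r₁ univ - A.card →
      ∃ T, u ∉ T ∧ Tight r₁ r₂ A N T ∧ Tight r₁ r₂ A N (insert u T) := by
    intro X hX h3 h4
    have huX : u ∉ X := fun h5 => huE (hX h5)
    refine ⟨A ∪ X, ?_, D.tight (hX.trans hEZ) h3, ?_⟩
    · simp only [mem_union, not_or]; exact ⟨huA, huX⟩
    · rw [← union_insert]
      exact D.tight (insert_subset huZ (hX.trans hEZ)) h4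
  by_cases huC : u ∈ C
  · -- deletion of `u`
    by_cases hdel : ∀ X ⊆ Z.erase u,
        r₁ univ - A.card ≤ (r₁ (A ∪ X) - r₁ A) + (r₂ (N ∪ (Z.erase u \ X)) - r₂ N)
    · obtain ⟨C', hC', h3⟩ := D.inter_in hEZ hdel
      have h4 := hu C C' hC h3
      exact absurd (hC' (h4 ▸ huC)) huE
    push Not at hdel
    obtain ⟨X, hX, h3⟩ := hdel
    have huX : u ∉ X := fun h5 => huE (hX h5)
    have e1 : Z \ insert u X = Z.erase u \ X := by
      ext v; simp only [mem_sdiff, mem_insert, mem_erase, not_or]; tauto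
    have e2 : Z \ X = insert u (Z.erase u \ X) := by
      ext v; simp only [mem_sdiff, mem_insert, mem_erase]
      constructor
      · rintro ⟨h4, h5⟩
        by_cases h6 : v = u
        · exact Or.inl h6
        · exact Or.inr ⟨⟨h6, h4⟩, h5⟩
      · rintro (rfl | ⟨⟨h4, h5⟩, h6⟩)
        · exact ⟨huZ, huX⟩
        · exact ⟨h5, h6⟩
    have h4 := (contractSet D.h₂ N).ins u (Z.erase u \ X)
    have h5 := (contractSet D.h₁ A).ins u X
    apply fin X hX
    · rw [e2]; linarith
    · rw [e1]; linarith
  · -- contraction of `u`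
    have hz2 : r₂ (N ∪ Z) - r₂ N ≤ r₁ univ - A.card := by
      have := D.le_univ₂ (N ∪ Z); linarith
    have hz1 : r₁ (A ∪ Z) - r₁ A ≤ r₁ univ - A.card := by
      have := D.le_univ₁ (A ∪ Z); linarith
    have h01 : ∀ (r : Finset V → ℤ), IsRk r → r {u} = 0 ∨ r {u} = 1 := by
      intro r hr
      have h3 := hr.nonneg {u}
      have h4 := hr.le_card {u}
      rw [card_singleton] at h4
      push_cast at h4
      omega
    rcases h01 _ (contractSet D.h₁ A) with k1 | k1
    · apply fin ∅ (empty_subset _)
      · rw [union_empty, sdiff_empty]; linarith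
      · rw [insert_empty_eq]
        have h3 := D.h₂.mono (N ∪ (Z \ {u})) (N ∪ Z) (union_subset_union_right sdiff_subset)
        linarith
    rcases h01 _ (contractSet D.h₂ N) with k2 | k2
    · apply fin (Z.erase u) (Subset.refl _)
      · have e1 : Z \ Z.erase u = {u} := by
          ext v; simp only [mem_sdiff, mem_erase, mem_singleton]
          constructor
          · rintro ⟨h3, h4⟩
            by_contra h5
            exact h4 ⟨h5, h3⟩
          · rintro rfl
            exact ⟨huZ, fun h3 => h3.1 rfl⟩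
        rw [e1]
        have h3 := D.h₁.mono (A ∪ Z.erase u) (A ∪ Z) (union_subset_union_right hEZ)
        linarith
      · rw [insert_erase huZ, show Z \ Z = ∅ from Finset.sdiff_self Z, union_empty]; linarith
    have C1 := (contractSet D.h₁ A).contract k1
    have C2 := (contractSet D.h₂ N).contract k2
    obtain ⟨k, hk⟩ : ∃ k : ℕ, r₁ univ - A.card - 1 = k := by
      refine ⟨(r₁ univ - A.card - 1).toNat, (Int.toNat_of_nonneg ?_).symm⟩
      have h3 := D.h₁.mono (A ∪ {u}) (A ∪ Z) (union_subset_union_right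
        (singleton_subset_iff.2 huZ))
      linarith
    by_cases hcon : ∀ X ⊆ Z.erase u, (k : ℤ) ≤
        (r₁ (A ∪ insert u X) - r₁ A - 1) + (r₂ (N ∪ insert u (Z.erase u \ X)) - r₂ N - 1)
    · obtain ⟨I, hI, hcard, h3, h4⟩ := inter (Z.erase u) _ _ C1 C2 k hcon
      have huI : u ∉ I := fun h5 => huE (hI h5)
      have hIZ : insert u I ⊆ Z := insert_subset huZ (hI.trans hEZ)
      have hcc' : ((insert u I).card : ℤ) = k + 1 := by
        rw [card_insert_of_notMem huI, hcard]; push_cast; ring
      have hC' : Compl r₁ r₂ A N (insert u I) := by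
        refine ⟨hIZ, ?_, ?_⟩
        · have h5 : Disjoint A (insert u I) := disjoint_left.2 fun v hv hv2 => by
            have := hIZ hv2
            simp only [hZ, mem_compl, mem_union, not_or] at this
            exact this.1 hv
          have h6 : ((A ∪ insert u I).card : ℤ) = A.card + (k + 1) := by
            rw [card_union_of_disjoint h5, Nat.cast_add, hcc']
          exact ⟨by rw [h6]; linarith, by linarith⟩
        · have h5 : Disjoint N (insert u I) := disjoint_left.2 fun v hv hv2 => by
            have := hIZ hv2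
            simp only [hZ, mem_compl, mem_union, not_or] at this
            exact this.2 hv
          have h6 : ((N ∪ insert u I).card : ℤ) = N.card + (k + 1) := by
            rw [card_union_of_disjoint h5, Nat.cast_add, hcc']
          exact ⟨by rw [h6]; linarith, by linarith⟩
      have h5 := hu C _ hC hC'
      exact absurd (h5 ▸ mem_insert_self u I) huC
    push Not at hcon
    obtain ⟨X, hX, h3⟩ := hcon
    have huX : u ∉ X := fun h5 => huE (hX h5)
    have e1 : Z \ insert u X = Z.erase u \ X := by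
      ext v; simp only [mem_sdiff, mem_insert, mem_erase, not_or]; tauto
    have e2 : Z \ X = insert u (Z.erase u \ X) := by
      ext v; simp only [mem_sdiff, mem_insert, mem_erase]
      constructor
      · rintro ⟨h4, h5⟩
        by_cases h6 : v = u
        · exact Or.inl h6
        · exact Or.inr ⟨⟨h6, h4⟩, h5⟩
      · rintro (rfl | ⟨⟨h4, h5⟩, h6⟩)
        · exact ⟨huZ, huX⟩
        · exact ⟨h5, h6⟩
    apply fin X hX
    · have h4 := D.h₁.mono (A ∪ X) (A ∪ insert u X) (union_subset_union_right (subset_insert _ _))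
      rw [e2]; omega
    · have h4 := D.h₂.mono (N ∪ (Z.erase u \ X)) (N ∪ insert u (Z.erase u \ X))
        (union_subset_union_right (subset_insert _ _))
      rw [e1]; omega

/-- points at which every element is the difference of two tight sets are vertices -/
theorem extreme_of_tight {f : Finset V → ℝ} {x : V → ℝ} (hx : x ∈ Base f)
    (h : ∀ u, ∃ T, u ∉ T ∧ ∑ i ∈ T, x i = f T ∧ ∑ i ∈ insert u T, x i = f (insert u T)) :
    x ∈ Set.extremePoints ℝ (Base f) := by
  have htight : ∀ X : Finset V, ∑ i ∈ X, x i = f X →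
      ∀ y ∈ Base f, ∀ z ∈ Base f, x ∈ openSegment ℝ y z →
      ∑ i ∈ X, y i = ∑ i ∈ X, x i ∧ ∑ i ∈ X, z i = ∑ i ∈ X, x i := by
    rintro X hX y hy z hz ⟨p, q, hp, hq, hpq, hseg⟩
    have e1 := hy.1 X
    have e2 := hz.1 X
    have e4 : p * ∑ i ∈ X, y i + q * ∑ i ∈ X, z i = ∑ i ∈ X, x i := by
      rw [← hseg, mul_sum, mul_sum, ← sum_add_distrib]
      rfl
    rw [hX] at e4 ⊢
    have e5 : p * (f X - ∑ i ∈ X, y i) + q * (f X - ∑ i ∈ X, z i) = 0 := by
      linear_combination f X * hpq - e4
    have e6 := mul_nonneg hp.le (sub_nonneg.2 e1)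
    have e7 := mul_nonneg hq.le (sub_nonneg.2 e2)
    constructor
    · have e8 := (mul_eq_zero.1 (le_antisymm (by linarith) e6)).resolve_left hp.ne'
      linarith
    · have e8 := (mul_eq_zero.1 (le_antisymm (by linarith) e7)).resolve_left hq.ne'
      linarith
  rw [mem_extremePoints]
  refine ⟨hx, fun y hy z hz hseg => ?_⟩
  constructor
  · funext u
    obtain ⟨T, huT, h1, h2⟩ := h u
    have h3 := (htight T h1 y hy z hz hseg).1
    have h4 := (htight _ h2 y hy z hz hseg).1
    rw [sum_insert huT, sum_insert huT, h3] at h4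
    linarith
  · funext u
    obtain ⟨T, huT, h1, h2⟩ := h u
    have h3 := (htight T h1 y hy z hz hseg).2
    have h4 := (htight _ h2 y hy z hz hseg).2
    rw [sum_insert huT, sum_insert huT, h3] at h4
    linarith

end H12.SBO
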