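import Pool.Agent.H12.SBO.Small

/-!
Opposite vertices of `B(M₁) - B(M₂)`, where `M₁` is any matroid and `M₂` is a direct sum of uniform
matroids.
-/

namespace H12.SBO

open Finset H31.Frank

variable {V ι : Type*} [Fintype V] [DecidableEq V] [DecidableEq ι]

/-- `M` is the direct sum of uniform matroids on the sets `V_i = {v | b v = i}`, the one on `V_i`
having rank `c i`: a set is a base iff it has exactly `c i` elements in `V_i` for every `i`. -/
def IsSumUnif (M : Matroid V) (b : V → ι) (c : ι → ℕ) : Prop :=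
  ∀ T : Finset V, M.IsBase (T : Set V) ↔ ∀ i, (T.filter fun v => b v = i).card = c i

omit [Fintype V] in
theorem card_filter_union (b : V → ι) (i : ι) {P Q : Finset V} (h : Disjoint P Q) :
    ((P ∪ Q).filter fun v => b v = i).card =
      (P.filter fun v => b v = i).card + (Q.filter fun v => b v = i).card := by
  rw [filter_union, card_union_of_disjoint]
  exact disjoint_filter_filter h

variable {M₁ M₂ : Matroid V} {b : V → ι} {c : ι → ℕ}

/-- the completion is unique if the intersection of the two common bases is minimal -/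
theorem uniq_of_min (hE₂ : M₂.E = Set.univ) (hM : IsSumUnif M₂ b c) {P Q : Finset V}
    (hP : CB M₁ M₂ P) (hQ : CB M₁ M₂ Q)
    (hmin : ∀ B, CB M₁ M₂ B → (P ∩ Q).card ≤ (B ∩ Q).card)
    (C : Finset V) (hC : Compl (rk M₁) (rk M₂) (P \ Q) (Q \ P) C) : C = P ∩ Q := by
  obtain ⟨c1, c2, c3⟩ := hC
  have hCz : ∀ v, v ∈ C → (v ∈ P ↔ v ∈ Q) := fun v h5 => by
    have := c1 h5
    simp only [mem_compl, mem_union, mem_sdiff] at this
    tauto
  have hMP := (hM _).1 ((isB_iff M₂ hE₂ _).1 hP.2)
  have hMQ := (hM _).1 ((isB_iff M₂ hE₂ _).1 hQ.2)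
  have hMC := (hM _).1 ((isB_iff M₂ hE₂ _).1 c3)
  have dP : Disjoint (P \ Q) (P ∩ Q) := by
    rw [disjoint_left]; intro v h1 h2
    exact (mem_sdiff.1 h1).2 (mem_inter.1 h2).2
  have dQ : Disjoint (Q \ P) (P ∩ Q) := by
    rw [disjoint_left]; intro v h1 h2
    exact (mem_sdiff.1 h1).2 (mem_inter.1 h2).1
  have eP : P \ Q ∪ P ∩ Q = P := by ext v; simp only [mem_union, mem_sdiff, mem_inter]; tauto
  have eQ : Q \ P ∪ P ∩ Q = Q := by ext v; simp only [mem_union, mem_sdiff, mem_inter]; tauto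
  have dC : Disjoint (P \ Q) C := by
    rw [disjoint_left]; intro v h1 h2
    have := hCz v h2
    rw [mem_sdiff] at h1
    exact h1.2 (this.1 h1.1)
  have dC' : Disjoint (Q \ P) C := by
    rw [disjoint_left]; intro v h1 h2
    have := hCz v h2
    rw [mem_sdiff] at h1
    exact h1.2 (this.2 h1.1)
  -- `(P \ Q) ∪ C` is a common base
  have hB : CB M₁ M₂ (P \ Q ∪ C) := by
    refine ⟨c2, ?_⟩
    rw [isB_iff M₂ hE₂, hM]
    intro i
    have h1 := hMP i
    have h2 := hMQ i
    have h3 := hMC i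
    rw [← eP, card_filter_union b i dP] at h1
    rw [← eQ, card_filter_union b i dQ] at h2
    rw [card_filter_union b i dC'] at h3
    rw [card_filter_union b i dC]
    omega
  have h1 := hmin _ hB
  have h2 : (P \ Q ∪ C) ∩ Q = C ∩ (P ∩ Q) := by
    ext v
    have := hCz v
    simp only [mem_inter, mem_union, mem_sdiff]
    tauto
  rw [h2] at h1
  have h3 : C ∩ (P ∩ Q) = P ∩ Q := eq_of_subset_of_card_le inter_subset_right h1
  have h4 : C.card = (P ∩ Q).card := by
    have h5 := hB.1.1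
    have h6 := hB.1.2
    have h7 := hP.1.1
    have h8 := hP.1.2
    have h9 : (P \ Q ∪ C).card = P.card := by
      have : ((P \ Q ∪ C).card : ℤ) = P.card := by linarith
      exact_mod_cast this
    have h10 : P.card = (P \ Q).card + (P ∩ Q).card := by
      rw [← card_union_of_disjoint dP, eP]
    rw [card_union_of_disjoint dC] at h9
    omega
  exact (eq_of_subset_of_card_le (inter_eq_right.1 h3) h4.le).symm

/-- `± (χ_P - χ_Q)` are vertices for two common bases with minimal intersection -/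
theorem good_min (hE₂ : M₂.E = Set.univ) (hM : IsSumUnif M₂ b c) (hr : rk M₁ univ = rk M₂ univ)
    {P Q : Finset V} (hP : CB M₁ M₂ P) (hQ : CB M₁ M₂ Q)
    (h1 : ∀ B, CB M₁ M₂ B → (P ∩ Q).card ≤ (B ∩ Q).card)
    (h2 : ∀ B, CB M₁ M₂ B → (P ∩ Q).card ≤ (P ∩ B).card) : Good M₁ M₂ (P \ Q) (Q \ P) := by
  refine good_of_unique hr (disjoint_left.2 fun v h1 h2 => ?_) (compl_of_CB hP hQ)
    (compl_of_CB hQ hP) (uniq_of_min hE₂ hM hP hQ h1) (uniq_of_min hE₂ hM hQ hP ?_)
  · exact (mem_sdiff.1 h2).2 (mem_sdiff.1 h1).1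
  · intro B hB
    rw [inter_comm Q P, inter_comm B P]
    exact h2 B hB

end H12.SBO
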