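import Pool.Agent.H12.SBO.One
import Pool.Agent.H12.SBO.Part

/-!
Opposite vertices of `B(M₁) - B(M₂)` when any two common bases differ by at most one exchange.
-/

namespace H12.SBO

open Finset H31.Frank

variable {V : Type*} [Fintype V] [DecidableEq V] {M₁ M₂ : Matroid V}

theorem extreme_of_flag {A N : Finset V} (h : vec A N ∈ Base (dif M₁ M₂))
    (hs : ∀ u, ∃ T, u ∉ T ∧ Tight (rk M₁) (rk M₂) A N T ∧ Tight (rk M₁) (rk M₂) A N (insert u T)) :
    vec A N ∈ Set.extremePoints ℝ (Base (dif M₁ M₂)) := by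
  refine extreme_of_tight h fun u => ?_
  obtain ⟨T, huT, h5, h6⟩ := hs u
  refine ⟨T, huT, ?_, ?_⟩
  · rw [sum_vec]
    unfold Tight at h5
    unfold dif
    exact_mod_cast h5
  · rw [sum_vec]
    unfold Tight at h6
    unfold dif
    exact_mod_cast h6

theorem good_one (hr : rk M₁ univ = rk M₂ univ) {a b : V} (hab : a ≠ b) {E : Finset V}
    (ha : a ∉ E) (hb : b ∉ E) (hP : CB M₁ M₂ (insert a E)) (hQ : CB M₁ M₂ (insert b E))
    (uP : ∀ B, CB M₁ M₂ B → a ∈ B → B = insert a E)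
    (uQ : ∀ B, CB M₁ M₂ B → b ∈ B → B = insert b E) : Good M₁ M₂ {a} {b} := by
  have e1 : insert a E \ insert b E = {a} := by
    ext v; simp only [mem_sdiff, mem_insert, mem_singleton]
    constructor
    · tauto
    · rintro rfl; exact ⟨Or.inl rfl, fun h => h.elim hab ha⟩
  have e2 : insert b E \ insert a E = {b} := by
    ext v; simp only [mem_sdiff, mem_insert, mem_singleton]
    constructor
    · tauto
    · rintro rfl; exact ⟨Or.inl rfl, fun h => h.elim (fun h => hab h.symm) hb⟩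
  have c1 := compl_of_CB hP hQ
  have c2 := compl_of_CB hQ hP
  rw [e1, e2] at c1
  rw [e1, e2] at c2
  exact ⟨extreme_of_flag (c1.mem hr) (flag_one (isRk M₁) (isRk M₂) hr hab ha hb hP.1 hP.2 hQ.1 hQ.2
      (fun B h1 h2 => uP B ⟨h1, h2⟩) (fun B h1 h2 => uQ B ⟨h1, h2⟩)),
    extreme_of_flag (c2.mem hr) (flag_one (isRk M₁) (isRk M₂) hr hab.symm hb ha hQ.1 hQ.2 hP.1 hP.2
      (fun B h1 h2 => uQ B ⟨h1, h2⟩) (fun B h1 h2 => uP B ⟨h1, h2⟩))⟩

/-! ### duality -/

theorem rk_dual (M : Matroid V) (hE : M.E = Set.univ) (X : Finset V) :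
    rk M✶ X + rk M univ = rk M Xᶜ + X.card := by
  have h := M.eRk_dual_add_eRank (X : Set V) (by rw [hE]; exact Set.subset_univ _)
  have h1 : M.eRk ((univ : Finset V) : Set V) = M.eRank := by
    rw [coe_univ, ← hE, M.eRk_ground]
  have h2 : M.E \ (X : Set V) = ((Xᶜ : Finset V) : Set V) := by
    rw [hE, coe_compl, Set.compl_eq_univ_sdiff]
  rw [← h1, h2, eRk_cast M✶ X, eRk_cast M univ, eRk_cast M Xᶜ, Set.encard_coe_eq_coe_finsetCard] at h
  unfold rk
  exact_mod_cast h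

theorem dif_dual (hE₁ : M₁.E = Set.univ) (hE₂ : M₂.E = Set.univ)
    (hr : rk M₁ univ = rk M₂ univ) (X : Finset V) : dif M₁✶ M₂✶ X = dif M₁ M₂ Xᶜ := by
  unfold dif
  have h1 := rk_dual M₁ hE₁ X
  have h2 := rk_dual M₂ hE₂ Xᶜ
  have h3 := rk_dual M₂ hE₂ univ
  rw [compl_univ, (isRk M₂).zero] at h3
  rw [compl_compl] at h2 ⊢
  have h4 : (X.card : ℤ) + (Xᶜ).card = (univ : Finset V).card := by
    have := card_add_card_compl X
    rw [card_univ]
    exact_mod_cast this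
  have h5 : rk M₁✶ X + rk M₂✶ Xᶜ - rk M₂✶ univ = rk M₁ Xᶜ + rk M₂ X - rk M₂ univ := by
    linarith
  exact_mod_cast h5

/-- `B(f) = - B(g)` if `g X = f (V - X)` -/
theorem base_neg {f g : Finset V → ℝ} (hfg : ∀ X, g X = f Xᶜ) (h0 : f ∅ = 0) (hU : f univ = 0)
    (x : V → ℝ) : x ∈ Base g ↔ -x ∈ Base f := by
  have hs : ∀ X : Finset V, ∑ i ∈ X, (-x) i = - ∑ i ∈ X, x i := fun X => by
    simp only [Pi.neg_apply, sum_neg_distrib]
  have hc : ∀ X : Finset V, ∑ i ∈ X, x i + ∑ i ∈ Xᶜ, x i = ∑ i, x i := fun X => sum_add_sum_compl X x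
  constructor
  · rintro ⟨h1, h2⟩
    rw [hfg, compl_univ, h0] at h2
    refine ⟨fun X => ?_, ?_⟩
    · have h3 := h1 Xᶜ
      rw [hfg, compl_compl] at h3
      have h4 := hc X
      rw [hs]; linarith
    · rw [hs, hU, h2, neg_zero]
  · rintro ⟨h1, h2⟩
    rw [hs, hU] at h2
    refine ⟨fun X => ?_, ?_⟩
    · have h3 := h1 Xᶜ
      rw [hs] at h3
      have h4 := hc X
      rw [hfg]; linarith
    · rw [hfg, compl_univ, h0]; linarith

theorem extreme_neg {f g : Finset V → ℝ} (hfg : ∀ X, g X = f Xᶜ) (h0 : f ∅ = 0) (hU : f univ = 0)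
    {x : V → ℝ} (hx : x ∈ Set.extremePoints ℝ (Base g)) : -x ∈ Set.extremePoints ℝ (Base f) := by
  rw [mem_extremePoints] at hx ⊢
  refine ⟨(base_neg hfg h0 hU x).1 hx.1, fun y hy z hz hyz => ?_⟩
  have h1 : -y ∈ Base g := by
    rw [base_neg hfg h0 hU, neg_neg]; exact hy
  have h2 : -z ∈ Base g := by
    rw [base_neg hfg h0 hU, neg_neg]; exact hz
  obtain ⟨h3, h4⟩ := hx.2 (-y) h1 (-z) h2 (by
    obtain ⟨s, t, hs, ht, hst, h5⟩ := hyz
    refine ⟨s, t, hs, ht, hst, ?_⟩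
    rw [smul_neg, smul_neg, ← neg_add, h5, neg_neg])
  exact ⟨by rw [← h3, neg_neg], by rw [← h4, neg_neg]⟩

theorem dif_univ (hr : rk M₁ univ = rk M₂ univ) : dif M₁ M₂ univ = 0 := by
  unfold dif
  rw [compl_univ, (isRk M₂).zero, hr]
  push_cast; ring

theorem good_dual (hE₁ : M₁.E = Set.univ) (hE₂ : M₂.E = Set.univ)
    (hr : rk M₁ univ = rk M₂ univ) {A N : Finset V} (h : Good M₁✶ M₂✶ A N) : Good M₁ M₂ A N := by
  have h1 := extreme_neg (dif_dual hE₁ hE₂ hr) (dif_empty M₁ M₂) (dif_univ hr) h.1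
  have h2 := extreme_neg (dif_dual hE₁ hE₂ hr) (dif_empty M₁ M₂) (dif_univ hr) h.2
  rw [neg_vec] at h1 h2
  exact ⟨h2, h1⟩

theorem dif_swap (hr : rk M₁ univ = rk M₂ univ) (X : Finset V) :
    dif M₂ M₁ X = dif M₁ M₂ Xᶜ := by
  unfold dif
  rw [compl_compl, hr]; ring

theorem good_swap (hr : rk M₁ univ = rk M₂ univ) {A N : Finset V} (h : Good M₂ M₁ A N) :
    Good M₁ M₂ A N := by
  have h1 := extreme_neg (dif_swap hr) (dif_empty M₁ M₂) (dif_univ hr) h.1
  have h2 := extreme_neg (dif_swap hr) (dif_empty M₁ M₂) (dif_univ hr) h.2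
  rw [neg_vec] at h1 h2
  exact ⟨h2, h1⟩

theorem CB.swap {P : Finset V} (h : CB M₁ M₂ P) : CB M₂ M₁ P := ⟨h.2, h.1⟩

/-- one of the two matroids is a direct sum of uniform matroids -/
theorem good_min' {ι : Type*} [DecidableEq ι] {b : V → ι} {c : ι → ℕ}
    (hE₁ : M₁.E = Set.univ) (hE₂ : M₂.E = Set.univ) (hr : rk M₁ univ = rk M₂ univ)
    (hM : IsSumUnif M₂ b c ∨ IsSumUnif M₁ b c) {P Q : Finset V} (hP : CB M₁ M₂ P)
    (hQ : CB M₁ M₂ Q) (h1 : ∀ B, CB M₁ M₂ B → (P ∩ Q).card ≤ (B ∩ Q).card)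
    (h2 : ∀ B, CB M₁ M₂ B → (P ∩ Q).card ≤ (P ∩ B).card) : Good M₁ M₂ (P \ Q) (Q \ P) := by
  rcases hM with hM | hM
  · exact good_min hE₂ hM hr hP hQ h1 h2
  · exact good_swap hr (good_min hE₁ hM hr.symm hP.swap hQ.swap (fun B hB => h1 B hB.swap)
      (fun B hB => h2 B hB.swap))

theorem CB_dual (hE₁ : M₁.E = Set.univ) (hE₂ : M₂.E = Set.univ) (B : Finset V) :
    CB M₁✶ M₂✶ B ↔ CB M₁ M₂ Bᶜ := by
  have h : ∀ M : Matroid V, M.E = Set.univ → (IsB (rk M✶) B ↔ IsB (rk M) Bᶜ) := by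
    intro M hE
    rw [isB_iff M✶ (by rw [Matroid.dual_ground]; exact hE), isB_iff M hE,
      Matroid.dual_isBase_iff (by rw [hE]; exact Set.subset_univ _), hE, coe_compl,
      Set.compl_eq_univ_sdiff]
  unfold CB
  rw [h M₁ hE₁, h M₂ hE₂]

theorem rk_dual_univ (hE₁ : M₁.E = Set.univ) (hE₂ : M₂.E = Set.univ)
    (hr : rk M₁ univ = rk M₂ univ) : rk M₁✶ univ = rk M₂✶ univ := by
  have h1 := rk_dual M₁ hE₁ univ
  have h2 := rk_dual M₂ hE₂ univ
  rw [compl_univ] at h1 h2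
  rw [(isRk M₁).zero] at h1
  rw [(isRk M₂).zero] at h2
  linarith

/-- the dual form of `good_one` -/
theorem good_one' (hE₁ : M₁.E = Set.univ) (hE₂ : M₂.E = Set.univ)
    (hr : rk M₁ univ = rk M₂ univ) {a b : V} (hab : a ≠ b) {E : Finset V}
    (ha : a ∉ E) (hb : b ∉ E) (hP : CB M₁ M₂ (insert a E)) (hQ : CB M₁ M₂ (insert b E))
    (uP : ∀ B, CB M₁ M₂ B → b ∉ B → B = insert a E)
    (uQ : ∀ B, CB M₁ M₂ B → a ∉ B → B = insert b E) : Good M₁ M₂ {a} {b} := by
  apply good_dual hE₁ hE₂ hr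
  have key : ∀ a b : V, a ≠ b → a ∉ E → b ∉ E →
      (insert a (insert b (insert a E))ᶜ)ᶜ = insert b E := by
    intro a b hab ha hb
    ext v
    simp only [mem_compl, mem_insert, not_or]
    constructor
    · rintro ⟨h1, h2⟩; tauto
    · rintro (rfl | h)
      · exact ⟨hab.symm, fun h => h.1 rfl⟩
      · refine ⟨?_, fun h2 => h2.2.2 h⟩
        rintro rfl; exact ha h
  have hk1 := key a b hab ha hb
  have hk2 := key b a hab.symm hb ha
  rw [insert_comm a b] at hk2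
  refine good_one (rk_dual_univ hE₁ hE₂ hr) hab (E := (insert b (insert a E))ᶜ) (by simp) (by simp)
    ?_ ?_ ?_ ?_
  · rw [CB_dual hE₁ hE₂, hk1]; exact hQ
  · rw [CB_dual hE₁ hE₂, hk2]; exact hP
  · intro B hB haB
    rw [CB_dual hE₁ hE₂] at hB
    have h1 := uQ _ hB (by simpa using haB)
    rw [← hk1] at h1
    exact compl_injective h1
  · intro B hB hbB
    rw [CB_dual hE₁ hE₂] at hB
    have h1 := uP _ hB (by simpa using hbB)
    rw [← hk2] at h1
    exact compl_injective h1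

/-- any two common bases differ by at most one exchange: then every difference of two different
common bases is good -/
theorem good_diam (hE₁ : M₁.E = Set.univ) (hE₂ : M₂.E = Set.univ)
    (hr : rk M₁ univ = rk M₂ univ)
    (h : ∀ P Q, CB M₁ M₂ P → CB M₁ M₂ Q → (P \ Q).card ≤ 1) {P Q : Finset V}
    (hP : CB M₁ M₂ P) (hQ : CB M₁ M₂ Q) (hPQ : P ≠ Q) : Good M₁ M₂ (P \ Q) (Q \ P) := by
  have hcard := hP.card_eq hQ
  have hne : ∀ P Q : Finset V, P.card = Q.card → P ≠ Q → (P \ Q).Nonempty := by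
    intro P Q h1 h2
    rw [sdiff_nonempty]
    exact fun h3 => h2 (eq_of_subset_of_card_le h3 h1.symm.le)
  have one : ∀ P Q : Finset V, P.card = Q.card → P ≠ Q → (P \ Q).card ≤ 1 → ∃ a, P \ Q = {a} := by
    intro P Q h1 h2 h3
    exact card_eq_one.1 (le_antisymm h3 (card_pos.2 (hne P Q h1 h2)))
  obtain ⟨a, ha⟩ := one P Q hcard hPQ (h P Q hP hQ)
  obtain ⟨b, hb⟩ := one Q P hcard.symm hPQ.symm (h Q P hQ hP)
  have haP : a ∈ P \ Q := by rw [ha]; exact mem_singleton_self _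
  have hbQ : b ∈ Q \ P := by rw [hb]; exact mem_singleton_self _
  rw [mem_sdiff] at haP hbQ
  have hab : a ≠ b := by rintro rfl; exact haP.2 hbQ.1
  have hPE : P = insert a (P ∩ Q) := by
    ext v
    have h1 : v ∈ P \ Q ↔ v = a := by rw [ha, mem_singleton]
    rw [mem_sdiff] at h1
    simp only [mem_insert, mem_inter]
    constructor
    · intro h2; by_cases h3 : v ∈ Q
      · exact Or.inr ⟨h2, h3⟩
      · exact Or.inl (h1.1 ⟨h2, h3⟩)
    · rintro (rfl | h2)
      · exact haP.1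
      · exact h2.1
  have hQE : Q = insert b (P ∩ Q) := by
    ext v
    have h1 : v ∈ Q \ P ↔ v = b := by rw [hb, mem_singleton]
    rw [mem_sdiff] at h1
    simp only [mem_insert, mem_inter]
    constructor
    · intro h2; by_cases h3 : v ∈ P
      · exact Or.inr ⟨h3, h2⟩
      · exact Or.inl (h1.1 ⟨h2, h3⟩)
    · rintro (rfl | h2)
      · exact hbQ.1
      · exact h2.2
  -- a common base containing exactly one of `a`, `b` is `P` or `Q`
  have sing : ∀ (B C : Finset V) (v : V), (B \ C).card ≤ 1 → v ∈ B → v ∉ C → B \ C = {v} := by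
    intro B C v h1 h2 h3
    symm
    apply eq_of_subset_of_card_le
    · intro w hw
      rw [mem_singleton] at hw
      rw [hw, mem_sdiff]; exact ⟨h2, h3⟩
    · rw [card_singleton]; exact h1
  have ex1 : ∀ B, CB M₁ M₂ B → a ∈ B → b ∉ B → B = P := by
    intro B hB h1 h2
    have h3 := sing B Q a (h B Q hB hQ) h1 haP.2
    apply eq_of_subset_of_card_le _ (hB.card_eq hP).symm.le
    intro v hv
    by_cases hva : v = a
    · rw [hva]; exact haP.1
    · have h4 : v ∈ Q := by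
        by_contra h5
        have : v ∈ B \ Q := mem_sdiff.2 ⟨hv, h5⟩
        rw [h3, mem_singleton] at this
        exact hva this
      by_contra h5
      have : v ∈ Q \ P := mem_sdiff.2 ⟨h4, h5⟩
      rw [hb, mem_singleton] at this
      exact h2 (this ▸ hv)
  have ex2 : ∀ B, CB M₁ M₂ B → b ∈ B → a ∉ B → B = Q := by
    intro B hB h1 h2
    have h3 := sing B P b (h B P hB hP) h1 hbQ.2
    apply eq_of_subset_of_card_le _ (hB.card_eq hQ).symm.le
    intro v hv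
    by_cases hvb : v = b
    · rw [hvb]; exact hbQ.1
    · have h4 : v ∈ P := by
        by_contra h5
        have : v ∈ B \ P := mem_sdiff.2 ⟨hv, h5⟩
        rw [h3, mem_singleton] at this
        exact hvb this
      by_contra h5
      have : v ∈ P \ Q := mem_sdiff.2 ⟨h4, h5⟩
      rw [ha, mem_singleton] at this
      exact h2 (this ▸ hv)
  have hEa : a ∉ P ∩ Q := fun h1 => haP.2 (mem_inter.1 h1).2
  have hEb : b ∉ P ∩ Q := fun h1 => hbQ.2 (mem_inter.1 h1).1
  rw [ha, hb]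
  by_cases hboth : ∃ B, CB M₁ M₂ B ∧ a ∈ B ∧ b ∈ B
  · obtain ⟨B, hB, haB, hbB⟩ := hboth
    have hno : ∀ C, CB M₁ M₂ C → ¬ (a ∉ C ∧ b ∉ C) := by
      rintro C hC ⟨h1, h2⟩
      have h3 : ({a, b} : Finset V) ⊆ B \ C := by
        intro v hv
        simp only [mem_insert, mem_singleton] at hv
        rw [mem_sdiff]
        rcases hv with rfl | rfl
        · exact ⟨haB, h1⟩
        · exact ⟨hbB, h2⟩
      have h4 := card_le_card h3
      rw [card_pair hab] at h4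
      have := h B C hB hC
      omega
    refine good_one' hE₁ hE₂ hr hab hEa hEb (by rw [← hPE]; exact hP) (by rw [← hQE]; exact hQ) ?_ ?_
    · intro C hC h1
      rw [← hPE]
      apply ex1 C hC _ h1
      by_contra h2
      exact hno C hC ⟨h2, h1⟩
    · intro C hC h1
      rw [← hQE]
      apply ex2 C hC _ h1
      by_contra h2
      exact hno C hC ⟨h1, h2⟩
  · push Not at hboth
    refine good_one hr hab hEa hEb (by rw [← hPE]; exact hP) (by rw [← hQE]; exact hQ) ?_ ?_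
    · intro C hC h1
      rw [← hPE]
      exact ex1 C hC h1 (hboth C hC h1)
    · intro C hC h1
      rw [← hQE]
      exact ex2 C hC h1 fun h2 => hboth C hC h2 h1

theorem good_unique (hr : rk M₁ univ = rk M₂ univ) {P : Finset V} (hP : CB M₁ M₂ P)
    (h : ∀ Q, CB M₁ M₂ Q → Q = P) : Good M₁ M₂ ∅ ∅ := by
  refine good_of_unique hr (disjoint_empty_left _) (C₀ := P) (C₁ := P) ?_ ?_ ?_ ?_
  · exact ⟨by simp, by simpa using hP.1, by simpa using hP.2⟩
  · exact ⟨by simp, by simpa using hP.1, by simpa using hP.2⟩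
  · intro C hC
    exact h C ⟨by simpa using hC.2.1, by simpa using hC.2.2⟩
  · intro C hC
    exact h C ⟨by simpa using hC.2.1, by simpa using hC.2.2⟩

/-- the criterion in terms of the common bases -/
theorem exists_good_cb (hE₁ : M₁.E = Set.univ) (hE₂ : M₂.E = Set.univ)
    (hr : rk M₁ univ = rk M₂ univ) {P₀ : Finset V} (hP₀ : CB M₁ M₂ P₀)
    (h : (∀ P Q, CB M₁ M₂ P → CB M₁ M₂ Q → (P \ Q).card ≤ 1) ∨
      ∃ P Q, CB M₁ M₂ P ∧ CB M₁ M₂ Q ∧ (Disjoint P Q ∨ P ∪ Q = univ)) :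
    ∃ P Q, CB M₁ M₂ P ∧ CB M₁ M₂ Q ∧ Good M₁ M₂ (P \ Q) (Q \ P) := by
  rcases h with h | ⟨P, Q, h1, h2, h3⟩
  · by_cases hu : ∀ Q, CB M₁ M₂ Q → Q = P₀
    · refine ⟨P₀, P₀, hP₀, hP₀, ?_⟩
      rw [sdiff_self]
      exact good_unique hr hP₀ hu
    · push Not at hu
      obtain ⟨Q, hQ, hne⟩ := hu
      exact ⟨Q, P₀, hQ, hP₀, good_diam hE₁ hE₂ hr h hQ hP₀ hne⟩
  · exact ⟨P, Q, h1, h2, good_of_cover hr h1 h2 h3⟩

/-- rank or corank at most two -/
theorem small_rank (h : rk M₁ univ ≤ 2 ∨ (Fintype.card V : ℤ) ≤ rk M₁ univ + 2) :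
    (∀ P Q, CB M₁ M₂ P → CB M₁ M₂ Q → (P \ Q).card ≤ 1) ∨
      ∃ P Q, CB M₁ M₂ P ∧ CB M₁ M₂ Q ∧ (Disjoint P Q ∨ P ∪ Q = univ) := by
  by_contra hno
  rw [not_or] at hno
  obtain ⟨h1, h2⟩ := hno
  push Not at h1 h2
  obtain ⟨P, Q, hP, hQ, h3⟩ := h1
  obtain ⟨h4, h5⟩ := h2 P Q hP hQ
  have hc : (P.card : ℤ) = rk M₁ univ := by rw [← hP.1.1, hP.1.2]
  have hc' : (Q.card : ℤ) = rk M₁ univ := by rw [← hQ.1.1, hQ.1.2]
  rcases h with h | h
  · have h6 : P.card ≤ 2 := by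
      have : (P.card : ℤ) ≤ 2 := by linarith
      exact_mod_cast this
    have h7 := card_sdiff_add_card_inter P Q
    have h8 : (P ∩ Q).card = 0 := by omega
    exact h4 (disjoint_iff_inter_eq_empty.2 (card_eq_zero.1 h8))
  · have h6 : Fintype.card V ≤ Q.card + 2 := by
      have : (Fintype.card V : ℤ) ≤ Q.card + 2 := by linarith
      exact_mod_cast this
    apply h5
    rw [eq_univ_iff_forall]
    by_contra h7
    push Not at h7
    obtain ⟨w, hw⟩ := h7
    rw [mem_union, not_or] at hw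
    have h8 : (P \ Q) ∪ {w} ⊆ Qᶜ := by
      intro v hv
      simp only [mem_union, mem_sdiff, mem_singleton] at hv
      rw [mem_compl]
      rcases hv with hv | rfl
      · exact hv.2
      · exact hw.2
    have h9 := card_le_card h8
    rw [card_union_of_disjoint (by
      rw [disjoint_singleton_right, mem_sdiff]; exact fun h => hw.1 h.1), card_singleton,
      card_compl] at h9
    omega

end H12.SBO
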