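import Pool.Agent.H12.SBO.Base

/-!
Opposite vertices of the difference of two matroid base polytopes.
-/

namespace H12.SBO

open Finset H31.Frank

variable {V : Type*} [Fintype V] [DecidableEq V]

/-- The function `X ↦ r₁(X) + r₂(V \ X) - r₂(V)` of two matroids. -/
noncomputable def dif (M₁ M₂ : Matroid V) (X : Finset V) : ℝ :=
  (rk M₁ X : ℝ) + (rk M₂ Xᶜ : ℝ) - (rk M₂ univ : ℝ)

theorem isB_iff (M : Matroid V) (hE : M.E = Set.univ) (B : Finset V) :
    IsB (rk M) B ↔ M.IsBase (B : Set V) := by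
  have hfin : M.RankFinite := by
    have : M.Finite := ⟨Set.toFinite _⟩
    infer_instance
  have hu : M.eRk ((univ : Finset V) : Set V) = M.eRank := by
    rw [coe_univ, ← hE, M.eRk_ground]
  constructor
  · rintro ⟨h1, h2⟩
    have h3 : M.Indep (B : Set V) := by
      rw [M.indep_iff_eRk_eq_encard_of_finite B.finite_toSet, eRk_cast,
        Set.encard_coe_eq_coe_finsetCard]
      unfold rk at h1
      exact_mod_cast h1
    apply h3.isBase_of_eRk_ge
    · exact B.finite_toSet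
    · rw [← hu, eRk_cast M univ, eRk_cast M B]
      unfold rk at h2
      exact_mod_cast h2.symm.le
  · intro h1
    have h2 := h1.eRk_eq_eRank
    have h3 := h1.indep.eRk_eq_encard
    rw [Set.encard_coe_eq_coe_finsetCard, eRk_cast] at h3
    rw [← hu, eRk_cast M B, eRk_cast M univ] at h2
    unfold IsB rk
    exact ⟨by exact_mod_cast h3, by exact_mod_cast h2⟩

theorem mem_iff (M₁ M₂ : Matroid V) (hr : rk M₁ univ = rk M₂ univ) (A N : Finset V) :
    vec A N ∈ Base (dif M₁ M₂) ↔ Le (rk M₁) (rk M₂) A N ∧ A.card = N.card := by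
  have h2 := (isRk M₂).zero
  constructor
  · rintro ⟨h3, h4⟩
    constructor
    · intro X
      have h5 := h3 X
      rw [sum_vec] at h5
      unfold dif at h5
      exact_mod_cast h5
    · rw [sum_vec] at h4
      unfold dif at h4
      rw [univ_inter, univ_inter, compl_univ, h2, hr] at h4
      have h5 : (A.card : ℝ) = N.card := by push_cast at h4; linarith
      exact_mod_cast h5
  · rintro ⟨h3, h4⟩
    constructor
    · intro X
      rw [sum_vec]
      unfold dif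
      exact_mod_cast h3 X
    · rw [sum_vec]
      unfold dif
      rw [univ_inter, univ_inter, compl_univ, h2, hr, h4]
      push_cast; ring

theorem card_inter_le {r : Finset V → ℤ} (h : IsRk r) {P : Finset V} (hP : IsB r P)
    (X : Finset V) : ((X ∩ P).card : ℤ) ≤ r X := by
  have h3 := h.union_le (X ∩ P) (P \ X)
  have h4 : X ∩ P ∪ P \ X = P := by
    ext x; simp only [mem_union, mem_inter, mem_sdiff]; tauto
  have h5 : ((P \ X).card : ℤ) = P.card - (X ∩ P).card := by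
    have h6 := card_sdiff_add_card_inter P X
    rw [inter_comm] at h6
    have h7 : ((P \ X).card : ℤ) + (X ∩ P).card = P.card := by exact_mod_cast h6
    linarith
  rw [h4, hP.1, h5] at h3
  have h6 := h.mono _ _ (inter_subset_left (s₁ := X) (s₂ := P))
  linarith

theorem card_inter_compl (P X : Finset V) :
    ((X ∩ P).card : ℤ) + (Xᶜ ∩ P).card = P.card := by
  have h6 := card_sdiff_add_card_inter P X
  have h7 : P \ X = Xᶜ ∩ P := by
    ext v; simp only [mem_sdiff, mem_inter, mem_compl]; tauto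
  rw [h7, inter_comm P X] at h6
  have h8 : ((Xᶜ ∩ P).card : ℤ) + (X ∩ P).card = P.card := by exact_mod_cast h6
  linarith

/-- differences of bases lie in the polytope -/
theorem mem_of_bases (M₁ M₂ : Matroid V) (hr : rk M₁ univ = rk M₂ univ) {P Q : Finset V}
    (hP : IsB (rk M₁) P) (hQ : IsB (rk M₂) Q) : vec P Q ∈ Base (dif M₁ M₂) := by
  rw [mem_iff M₁ M₂ hr]
  constructor
  · intro X
    have h3 := card_inter_le (isRk M₁) hP X
    have h4 := card_inter_le (isRk M₂) hQ Xᶜ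
    have h5 := card_inter_compl Q X
    have h6 := hQ.1
    have h7 := hQ.2
    linarith
  · have h3 := hP.1
    have h4 := hP.2
    have h5 := hQ.1
    have h6 := hQ.2
    have h7 : (P.card : ℤ) = Q.card := by linarith
    exact_mod_cast h7

theorem rank_eq (M₁ M₂ : Matroid V) (h0 : (0 : V → ℝ) ∈ Base (dif M₁ M₂)) :
    rk M₁ univ = rk M₂ univ := by
  have h3 := h0.2
  simp only [Pi.zero_apply, sum_const_zero] at h3
  unfold dif at h3
  rw [compl_univ, (isRk M₂).zero] at h3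
  have h4 : (rk M₁ univ : ℝ) = rk M₂ univ := by push_cast at h3; linarith
  exact_mod_cast h4

theorem dif_single (M₁ M₂ : Matroid V) (u : V) : dif M₁ M₂ {u} ≤ 1 := by
  unfold dif
  have h3 : rk M₁ {u} ≤ 1 := by
    have := (isRk M₁).le_card {u}
    rwa [card_singleton] at this
  have h4 : rk M₂ ({u} : Finset V)ᶜ ≤ rk M₂ univ := (isRk M₂).mono _ _ (subset_univ _)
  have h5 : (rk M₁ {u} : ℝ) ≤ 1 := by exact_mod_cast h3
  have h6 : (rk M₂ ({u} : Finset V)ᶜ : ℝ) ≤ rk M₂ univ := by exact_mod_cast h4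
  linarith

/-- integral points are `χ_A - χ_N` -/
theorem integral_eq (M₁ M₂ : Matroid V) (x : V → ℤ)
    (hx : (fun i => (x i : ℝ)) ∈ Base (dif M₁ M₂))
    (hx' : (fun i => -(x i : ℝ)) ∈ Base (dif M₁ M₂)) :
    ∃ A N : Finset V, Disjoint A N ∧ (fun i => (x i : ℝ)) = vec A N ∧
      (fun i => -(x i : ℝ)) = vec N A ∧ ∀ i, (x i ≠ 0 ↔ i ∈ A ∪ N) := by
  have h1 : ∀ i, x i ≤ 1 := by
    intro i
    have h3 := hx.1 {i}
    rw [sum_singleton] at h3
    have h4 := h3.trans (dif_single M₁ M₂ i)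
    exact_mod_cast h4
  have h2 : ∀ i, -1 ≤ x i := by
    intro i
    have h3 := hx'.1 {i}
    rw [sum_singleton] at h3
    have h4 := h3.trans (dif_single M₁ M₂ i)
    have h5 : (-1 : ℝ) ≤ x i := by linarith
    exact_mod_cast h5
  have h3 : ∀ i, x i = 0 ∨ x i = 1 ∨ x i = -1 := by
    intro i
    have := h1 i
    have := h2 i
    omega
  refine ⟨univ.filter fun i => x i = 1, univ.filter fun i => x i = -1, ?_, ?_, ?_, ?_⟩
  · rw [disjoint_left]
    intro i hi hi2
    rw [mem_filter] at hi hi2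
    have := hi.2
    have := hi2.2
    omega
  · funext i
    unfold vec
    simp only [mem_filter, mem_univ, true_and]
    rcases h3 i with h4 | h4 | h4 <;> simp [h4]
  · funext i
    unfold vec
    simp only [mem_filter, mem_univ, true_and]
    rcases h3 i with h4 | h4 | h4 <;> simp [h4]
  · intro i
    simp only [mem_union, mem_filter, mem_univ, true_and]
    rcases h3 i with h4 | h4 | h4 <;> simp [h4]

/-- an integral point of `B ∩ (-B)` -/
def K (M₁ M₂ : Matroid V) (x : V → ℤ) : Prop :=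
  (fun i => (x i : ℝ)) ∈ Base (dif M₁ M₂) ∧ (fun i => -(x i : ℝ)) ∈ Base (dif M₁ M₂)

theorem extreme_vec (M₁ M₂ : Matroid V) (hr : rk M₁ univ = rk M₂ univ) {A N : Finset V}
    (hd : Disjoint A N) (h : vec A N ∈ Base (dif M₁ M₂))
    (hu : ∀ C C', Compl (rk M₁) (rk M₂) A N C → Compl (rk M₁) (rk M₂) A N C' → C = C') :
    vec A N ∈ Set.extremePoints ℝ (Base (dif M₁ M₂)) := by
  obtain ⟨h3, h4⟩ := (mem_iff M₁ M₂ hr A N).1 h
  have D : Dat (rk M₁) (rk M₂) A N := ⟨isRk M₁, isRk M₂, hr, hd, h4, h3⟩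
  refine extreme_of_tight h fun u => ?_
  obtain ⟨T, huT, h5, h6⟩ := D.sep hu u
  refine ⟨T, huT, ?_, ?_⟩
  · rw [sum_vec]
    unfold Tight at h5
    unfold dif
    exact_mod_cast h5
  · rw [sum_vec]
    unfold Tight at h6
    unfold dif
    exact_mod_cast h6

/-- the completions of `x` and of `-x` coincide if the support of `x` is maximal -/
theorem eq_of_max (M₁ M₂ : Matroid V) (hE₁ : M₁.E = Set.univ) (hE₂ : M₂.E = Set.univ)
    (hr : rk M₁ univ = rk M₂ univ) (hp : Pack M₁ M₂) {A N : Finset V} (hd : Disjoint A N)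
    (hmax : ∀ y : V → ℤ, K M₁ M₂ y → (∀ i ∈ A ∪ N, y i ≠ 0) → ∀ i, y i ≠ 0 → i ∈ A ∪ N)
    {C C' : Finset V} (hC : Compl (rk M₁) (rk M₂) A N C) (hC' : Compl (rk M₁) (rk M₂) N A C') :
    C = C' := by
  obtain ⟨c1, c2, c3⟩ := hC
  obtain ⟨d1, d2, d3⟩ := hC'
  rw [isB_iff M₁ hE₁] at c2 d2
  rw [isB_iff M₂ hE₂] at c3 d3
  have hAN : ∀ v, v ∈ A → v ∉ N := fun v h4 h5 => (disjoint_left.1 hd) h4 h5
  have hCz : ∀ v, v ∈ C → v ∉ A ∧ v ∉ N := fun v h5 => by
    have := c1 h5
    simpa only [mem_compl, mem_union, not_or] using this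
  have hCz' : ∀ v, v ∈ C' → v ∉ A ∧ v ∉ N := fun v h5 => by
    have := d1 h5
    simp only [mem_compl, mem_union, not_or] at this
    exact ⟨this.2, this.1⟩
  obtain ⟨R, S, r1, s1, r2, s2, hi, hu⟩ := hp _ _ _ _ c2 d2 c3 d3 (by
      ext v
      simp only [Set.mem_inter_iff, mem_coe, mem_union]
      have := hAN v
      have := hCz v
      have := hCz' v
      tauto) (by
      ext v
      simp only [Set.mem_union, mem_coe, mem_union]
      tauto)
  lift R to Finset V using R.toFinite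
  lift S to Finset V using S.toFinite
  rw [← isB_iff M₁ hE₁] at r1 s1
  rw [← isB_iff M₂ hE₂] at r2 s2
  have hi' : ∀ v, (v ∈ R ∧ v ∈ S) ↔ (v ∈ A ∪ C ∧ v ∈ N ∪ C') := by
    intro v
    have := Set.ext_iff.1 hi v
    simpa only [Set.mem_inter_iff, mem_coe] using this
  have hu' : ∀ v, (v ∈ R ∨ v ∈ S) ↔ (v ∈ A ∪ C ∨ v ∈ N ∪ C') := by
    intro v
    have := Set.ext_iff.1 hu v
    simpa only [Set.mem_union, mem_coe] using this
  set y : V → ℤ := fun i => (if i ∈ R then 1 else 0) - (if i ∈ S then 1 else 0) with hy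
  have y1 : (fun i => (y i : ℝ)) = vec R S := by
    funext i; simp only [hy, vec]; push_cast; ring
  have y2 : (fun i => -(y i : ℝ)) = vec S R := by
    funext i; simp only [hy, vec]; push_cast; ring
  have hyK : K M₁ M₂ y := by
    refine ⟨?_, ?_⟩
    · rw [y1]; exact mem_of_bases M₁ M₂ hr r1 s2
    · rw [y2]; exact mem_of_bases M₁ M₂ hr s1 r2
  have hy0 : ∀ i, y i ≠ 0 ↔ ¬ (i ∈ R ↔ i ∈ S) := by
    intro i
    simp only [hy]
    by_cases h3 : i ∈ R <;> by_cases h4 : i ∈ S <;> simp [h3, h4]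
  have h3 := hmax y hyK (by
    intro i hi3
    rw [hy0]
    have e1 := hi' i
    have e2 := hu' i
    simp only [mem_union] at e1 e2 hi3
    rcases hi3 with h3 | h3
    · have e3 : i ∉ N := hAN i h3
      have e4 : i ∉ C := fun h => (hCz i h).1 h3
      have e5 : i ∉ C' := fun h => (hCz' i h).1 h3
      simp only [h3, e3, e4, e5, or_false, or_self, and_false, iff_false, iff_true]
        at e1 e2
      rcases e2 with h4 | h4
      · exact fun h5 => e1 ⟨h4, h5.1 h4⟩
      · exact fun h5 => e1 ⟨h5.2 h4, h4⟩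
    · have e3 : i ∉ A := fun h => hAN i h h3
      have e4 : i ∉ C := fun h => (hCz i h).2 h3
      have e5 : i ∉ C' := fun h => (hCz' i h).2 h3
      simp only [h3, e3, e4, e5, or_false, false_and, or_true, iff_false, iff_true]
        at e1 e2
      rcases e2 with h4 | h4
      · exact fun h5 => e1 ⟨h4, h5.1 h4⟩
      · exact fun h5 => e1 ⟨h5.2 h4, h4⟩)
  have h4 : ∀ v, (v ∈ C ↔ v ∈ C') := by
    intro v
    by_contra h5
    have e1 := hi' v
    have e2 := hu' v
    have h7 : v ∉ A ∧ v ∉ N := by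
      by_cases h8 : v ∈ C
      · exact hCz v h8
      · refine hCz' v ?_
        by_contra h9
        exact h5 ⟨fun h => absurd h h8, fun h => absurd h h9⟩
    have h6 := h3 v (by
      rw [hy0]
      simp only [mem_union, h7.1, h7.2, false_or] at e1 e2
      intro h8
      apply h5
      constructor
      · intro h9
        rcases e2.2 (Or.inl h9) with h10 | h10
        · exact (e1.1 ⟨h10, h8.1 h10⟩).2
        · exact (e1.1 ⟨h8.2 h10, h10⟩).2
      · intro h9
        rcases e2.2 (Or.inr h9) with h10 | h10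
        · exact (e1.1 ⟨h10, h8.1 h10⟩).1
        · exact (e1.1 ⟨h8.2 h10, h10⟩).1)
    rcases mem_union.1 h6 with h8 | h8
    · exact h7.1 h8
    · exact h7.2 h8
  ext v; exact h4 v

/-- points of `B ∩ (-B)` with maximal support are good -/
theorem good_of_max (M₁ M₂ : Matroid V) (hE₁ : M₁.E = Set.univ) (hE₂ : M₂.E = Set.univ)
    (hr : rk M₁ univ = rk M₂ univ) (hp : Pack M₁ M₂) (x : V → ℤ) (hx : K M₁ M₂ x)
    (hmax : ∀ y : V → ℤ, K M₁ M₂ y → (∀ i, x i ≠ 0 → y i ≠ 0) → ∀ i, y i ≠ 0 → x i ≠ 0) :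
    (fun i => (x i : ℝ)) ∈ Set.extremePoints ℝ (Base (dif M₁ M₂)) ∧
      (fun i => -(x i : ℝ)) ∈ Set.extremePoints ℝ (Base (dif M₁ M₂)) := by
  obtain ⟨A, N, hd, h1, h2, h3⟩ := integral_eq M₁ M₂ x hx.1 hx.2
  have hm : ∀ y : V → ℤ, K M₁ M₂ y → (∀ i ∈ A ∪ N, y i ≠ 0) → ∀ i, y i ≠ 0 → i ∈ A ∪ N := by
    intro y hy h4 i hi
    rw [← h3]
    exact hmax y hy (fun j hj => h4 j ((h3 j).1 hj)) i hi
  have hb := hx.1
  have hb' := hx.2
  rw [h1] at hb ⊢
  rw [h2] at hb' ⊢
  obtain ⟨k1, k2⟩ := (mem_iff M₁ M₂ hr A N).1 hb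
  obtain ⟨k3, k4⟩ := (mem_iff M₁ M₂ hr N A).1 hb'
  have D : Dat (rk M₁) (rk M₂) A N := ⟨isRk M₁, isRk M₂, hr, hd, k2, k1⟩
  have D' : Dat (rk M₁) (rk M₂) N A := ⟨isRk M₁, isRk M₂, hr, hd.symm, k4, k3⟩
  obtain ⟨C₀, hC₀⟩ := D.exists_compl
  obtain ⟨C₁, hC₁⟩ := D'.exists_compl
  constructor
  · refine extreme_vec M₁ M₂ hr hd hb fun C C' hC hC' => ?_
    rw [eq_of_max M₁ M₂ hE₁ hE₂ hr hp hd hm hC hC₁, eq_of_max M₁ M₂ hE₁ hE₂ hr hp hd hm hC' hC₁]
  · refine extreme_vec M₁ M₂ hr hd.symm hb' fun C C' hC hC' => ?_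
    rw [← eq_of_max M₁ M₂ hE₁ hE₂ hr hp hd hm hC₀ hC, ← eq_of_max M₁ M₂ hE₁ hE₂ hr hp hd hm hC₀ hC']

/-- every point of `B ∩ (-B)` is covered by a good one -/
theorem exists_good (M₁ M₂ : Matroid V) (hE₁ : M₁.E = Set.univ) (hE₂ : M₂.E = Set.univ)
    (hr : rk M₁ univ = rk M₂ univ) (hp : Pack M₁ M₂) :
    ∀ n : ℕ, ∀ x : V → ℤ, (univ.filter fun i => x i = 0).card = n → K M₁ M₂ x →
    ∃ v : V → ℤ, (∀ i, x i ≠ 0 → v i ≠ 0) ∧
      (fun i => (v i : ℝ)) ∈ Set.extremePoints ℝ (Base (dif M₁ M₂)) ∧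
      (fun i => -(v i : ℝ)) ∈ Set.extremePoints ℝ (Base (dif M₁ M₂)) := by
  intro n
  induction n using Nat.strong_induction_on with
  | _ n ih =>
    intro x hn hx
    by_cases hmax : ∀ y : V → ℤ, K M₁ M₂ y → (∀ i, x i ≠ 0 → y i ≠ 0) → ∀ i, y i ≠ 0 → x i ≠ 0
    · exact ⟨x, fun i hi => hi, good_of_max M₁ M₂ hE₁ hE₂ hr hp x hx hmax⟩
    push Not at hmax
    obtain ⟨y, hy, h3, i, hi, hi2⟩ := hmax
    have hlt : (univ.filter fun i => y i = 0).card < n := by
      rw [← hn]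
      apply card_lt_card
      rw [ssubset_iff_of_subset]
      · exact ⟨i, by simpa using hi2, by simpa using hi⟩
      · intro j hj
        rw [mem_filter] at hj ⊢
        refine ⟨mem_univ _, ?_⟩
        by_contra h4
        exact h3 j h4 hj.2
    obtain ⟨v, h4, h5⟩ := ih _ hlt y rfl hy
    exact ⟨v, fun j hj => h4 j (h3 j hj), h5⟩

end H12.SBO
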