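import Pool.Agent.H12.SBO.Small

/-!
Opposite vertices `±(e_a - e_b)` of `B(M₁) - B(M₂)`.
-/

namespace H12.SBO

open Finset H31.Frank

variable {V : Type*} [Fintype V] [DecidableEq V]

/-- tight sets are closed under intersections -/
theorem tight_inter {r₁ r₂ : Finset V → ℤ} (h₁ : IsRk r₁) (h₂ : IsRk r₂) {A N X Y : Finset V}
    (hle : Le r₁ r₂ A N) (hX : Tight r₁ r₂ A N X) (hY : Tight r₁ r₂ A N Y) :
    Tight r₁ r₂ A N (X ∩ Y) := by
  unfold Tight at *
  have h3 := hle (X ∩ Y)
  have h4 := hle (X ∪ Y)
  have h5 := h₁.sub X Y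
  have h6 := h₂.sub Xᶜ Yᶜ
  rw [← compl_inter, ← compl_union] at h6
  have e : ∀ C : Finset V, (((X ∪ Y) ∩ C).card : ℤ) + ((X ∩ Y) ∩ C).card =
      (X ∩ C).card + (Y ∩ C).card := by
    intro C
    have h7 := card_union_add_card_inter (X ∩ C) (Y ∩ C)
    have h8 : X ∩ C ∪ Y ∩ C = (X ∪ Y) ∩ C := by
      ext v; simp only [mem_union, mem_inter]; tauto
    have h9 : X ∩ C ∩ (Y ∩ C) = (X ∩ Y) ∩ C := by
      ext v; simp only [mem_inter]; tauto
    rw [h8, h9] at h7
    exact_mod_cast h7
  have e1 := e A
  have e2 := e N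
  linarith

/-- the inequality `x(X) ≤ f(X)` at a difference of two bases -/
theorem le_of_bases {r₁ r₂ : Finset V → ℤ} (h₁ : IsRk r₁) (h₂ : IsRk r₂) {P Q : Finset V} (hP : IsB r₁ P) (hQ : IsB r₂ Q) (X : Finset V) :
    ((X ∩ P).card : ℤ) - (X ∩ Q).card ≤ r₁ X + r₂ Xᶜ - r₂ univ := by
  have h3 := card_inter_le h₁ hP X
  have h4 := card_inter_le h₂ hQ Xᶜ
  have h5 := card_inter_compl Q X
  have h6 := hQ.1
  have h7 := hQ.2
  linarith

theorem two_count {a : V} {B : Finset V} (ha : a ∈ B) (X : Finset V) :
    ((insert a X ∩ B).card : ℤ) + (insert a Xᶜ ∩ B).card = B.card + 1 := by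
  have h5 : (insert a X ∩ B).card + (insert a Xᶜ ∩ B).card = B.card + 1 := by
    rw [← card_union_add_card_inter]
    have e1 : insert a X ∩ B ∪ insert a Xᶜ ∩ B = B := by
      ext v
      by_cases h : v ∈ X <;> simp [h]
    have e2 : insert a X ∩ B ∩ (insert a Xᶜ ∩ B) = {a} := by
      ext v
      by_cases h : v ∈ X <;> simp only [mem_inter, mem_insert, mem_compl, mem_singleton, h,
        or_true, or_false, true_and, not_true_eq_false, not_false_eq_true]
      · constructor
        · exact fun h3 => h3.2.1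
        · rintro rfl; exact ⟨ha, rfl, ha⟩
      · constructor
        · exact fun h3 => h3.1.1
        · rintro rfl; exact ⟨⟨rfl, ha⟩, ha⟩
    rw [e1, e2, card_singleton]
  exact_mod_cast h5

/-- `T` is tight for the contractions of `a` -/
def TA (r₁ r₂ : Finset V → ℤ) (a : V) (T : Finset V) : Prop :=
  r₁ (insert a T) + r₂ (insert a Tᶜ) = r₁ univ + 1

theorem ta_erase {r₁ r₂ : Finset V → ℤ} {a : V} {T : Finset V} (h : TA r₁ r₂ a T) :
    TA r₁ r₂ a (T.erase a) := by
  unfold TA at *
  have e1 : insert a (T.erase a) = insert a T := by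
    ext v; simp only [mem_insert, mem_erase]; tauto
  have e2 : insert a (T.erase a)ᶜ = insert a Tᶜ := by
    ext v; simp only [mem_insert, mem_compl, mem_erase]; tauto
  rw [e1, e2]; exact h

/-- if `E ∪ {a}` is the only common base containing `a`, then the sets tight for the contractions
of `a` separate all elements -/
theorem sep_one {r₁ r₂ : Finset V → ℤ} (h₁ : IsRk r₁) (h₂ : IsRk r₂) (hr : r₁ univ = r₂ univ)
    {a : V} {E : Finset V} (ha : a ∉ E) (p1 : IsB r₁ (insert a E)) (p2 : IsB r₂ (insert a E))
    (hu : ∀ B, IsB r₁ B → IsB r₂ B → a ∈ B → B = insert a E) (u : V) (hua : u ≠ a) :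
    ∃ T, a ∉ T ∧ u ∉ T ∧ TA r₁ r₂ a T ∧ TA r₁ r₂ a (insert u T) ∧
      ∀ T', TA r₁ r₂ a T' → TA r₁ r₂ a (T ∩ T') := by
  have ra1 : r₁ {a} = 1 := by
    have h3 := card_inter_le h₁ p1 {a}
    have h4 : ({a} : Finset V) ∩ insert a E = {a} := by
      rw [inter_eq_left]; simp
    rw [h4, card_singleton] at h3
    have h5 := h₁.le_card {a}
    rw [card_singleton] at h5
    push_cast at h3 h5
    linarith
  have ra2 : r₂ {a} = 1 := by
    have h3 := card_inter_le h₂ p2 {a}
    have h4 : ({a} : Finset V) ∩ insert a E = {a} := by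
      rw [inter_eq_left]; simp
    rw [h4, card_singleton] at h3
    have h5 := h₂.le_card {a}
    rw [card_singleton] at h5
    push_cast at h3 h5
    linarith
  set s₁ : Finset V → ℤ := fun X => r₁ ({a} ∪ X) - r₁ {a} with hs₁
  set s₂ : Finset V → ℤ := fun X => r₂ ({a} ∪ X) - r₂ {a} with hs₂
  have k₁ : IsRk s₁ := contractSet h₁ {a}
  have k₂ : IsRk s₂ := contractSet h₂ {a}
  have ui : ∀ X : Finset V, ({a} : Finset V) ∪ X = insert a X := fun X => by
    ext v; simp only [mem_union, mem_singleton, mem_insert]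
  have hsu : s₁ univ = s₂ univ := by
    simp only [hs₁, hs₂, ra1, ra2, ui, insert_eq_of_mem (mem_univ a), hr]
  have hcard : ((insert a E).card : ℤ) = r₁ univ := by rw [← p1.1, p1.2]
  have hle : Le s₁ s₂ ∅ ∅ := by
    intro X
    simp only [hs₁, hs₂, inter_empty, card_empty, ui, ra1, ra2, insert_eq_of_mem (mem_univ a)]
    have h3 := card_inter_le h₁ p1 (insert a X)
    have h4 := card_inter_le h₂ p2 (insert a Xᶜ)
    have h6 := two_count (mem_insert_self a E) X
    push_cast
    linarith
  have D : Dat s₁ s₂ ∅ ∅ := ⟨k₁, k₂, hsu, disjoint_empty_left _, rfl, hle⟩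
  have hcomp : ∀ C, Compl s₁ s₂ ∅ ∅ C → C = E := by
    intro C hC
    obtain ⟨_, c2, c3⟩ := hC
    unfold IsB at c2 c3
    simp only [hs₁, hs₂, empty_union, ui, ra1, ra2, insert_eq_of_mem (mem_univ a)] at c2 c3
    have haC : a ∉ C := by
      intro h4
      rw [insert_eq_of_mem h4] at c2
      have := h₁.le_card C
      linarith [c2.1]
    have h5 : ((insert a C).card : ℤ) = C.card + 1 := by
      rw [card_insert_of_notMem haC]; push_cast; ring
    have h6 := hu (insert a C) ⟨by linarith [c2.1], by linarith [c2.2]⟩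
      ⟨by linarith [c3.1], by linarith [c3.2]⟩ (mem_insert_self _ _)
    have h7 : (insert a C).erase a = (insert a E).erase a := by rw [h6]
    rwa [erase_insert haC, erase_insert ha] at h7
  obtain ⟨T, huT, t1, t2⟩ := D.sep (fun C C' h3 h4 => (hcomp C h3).trans (hcomp C' h4).symm) u
  have conv : ∀ X, Tight s₁ s₂ ∅ ∅ X ↔ TA r₁ r₂ a X := by
    intro X
    unfold Tight TA
    simp only [hs₁, hs₂, inter_empty, card_empty, ui, ra1, ra2, insert_eq_of_mem (mem_univ a)]
    push_cast
    constructor <;> intro h <;> linarith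
  refine ⟨T.erase a, notMem_erase _ _, fun h => huT (mem_of_mem_erase h), ta_erase ((conv _).1 t1),
    ?_, ?_⟩
  · have h3 := ta_erase ((conv _).1 t2)
    have h4 : (insert u T).erase a = insert u (T.erase a) := by
      rw [erase_insert_of_ne hua]
    rwa [h4] at h3
  · intro T' hT'
    rw [← conv]
    exact tight_inter k₁ k₂ hle ((conv _).2 (ta_erase ((conv _).1 t1))) ((conv _).2 hT')

/-- two common bases `E ∪ {a}`, `E ∪ {b}`, the first being the only one containing `a` and the
second the only one containing `b`: all elements are separated by tight sets of `e_a - e_b` -/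
theorem flag_one {r₁ r₂ : Finset V → ℤ} (h₁ : IsRk r₁) (h₂ : IsRk r₂) (hr : r₁ univ = r₂ univ)
    {a b : V} (hab : a ≠ b) {E : Finset V} (ha : a ∉ E) (hb : b ∉ E)
    (p1 : IsB r₁ (insert a E)) (p2 : IsB r₂ (insert a E))
    (q1 : IsB r₁ (insert b E)) (q2 : IsB r₂ (insert b E))
    (uP : ∀ B, IsB r₁ B → IsB r₂ B → a ∈ B → B = insert a E)
    (uQ : ∀ B, IsB r₁ B → IsB r₂ B → b ∈ B → B = insert b E) (u : V) :
    ∃ T, u ∉ T ∧ Tight r₁ r₂ {a} {b} T ∧ Tight r₁ r₂ {a} {b} (insert u T) := by
  have hcP : ((insert a E).card : ℤ) = r₁ univ := by rw [← p1.1, p1.2]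
  have hcQ : ((insert b E).card : ℤ) = r₁ univ := by rw [← q1.1, q1.2]
  -- the inequality at `e_a - e_b`
  have hcc : ∀ (X : Finset V) (w : V), w ∉ E → ((X ∩ insert w E).card : ℤ) =
      (X ∩ {w}).card + (X ∩ E).card := by
    intro X w hw
    have h3 : X ∩ insert w E = (X ∩ {w}) ∪ (X ∩ E) := by
      ext v; simp only [mem_inter, mem_insert, mem_union, mem_singleton]; tauto
    rw [h3, card_union_of_disjoint]
    · push_cast; ring
    · rw [disjoint_left]
      intro v h4 h5
      simp only [mem_inter, mem_singleton] at h4 h5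
      exact hw (h4.2 ▸ h5.2)
  have hle : Le r₁ r₂ {a} {b} := by
    intro X
    have h3 := le_of_bases h₁ h₂ p1 q2 X
    rw [hcc X a ha, hcc X b hb] at h3
    linarith
  have one : ∀ X : Finset V, a ∈ X → b ∉ X → r₁ X + r₂ Xᶜ ≤ r₁ univ + 1 →
      Tight r₁ r₂ {a} {b} X := by
    intro X haX hbX h3
    have h4 := hle X
    unfold Tight
    have e1 : X ∩ {a} = {a} := by rw [inter_eq_right]; simpa using haX
    have e2 : X ∩ {b} = ∅ := by
      rw [inter_singleton_of_notMem hbX]
    rw [e1, e2, card_singleton, card_empty] at h4 ⊢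
    push_cast at h4 ⊢
    linarith
  by_cases hua : u = a
  · subst hua
    refine ⟨∅, notMem_empty _, ?_, ?_⟩
    · unfold Tight; simp [h₁.zero]
    · rw [insert_empty_eq]
      apply one _ (mem_singleton_self _) (by simpa using hab.symm)
      have h3 := h₁.le_card {u}
      have h4 := h₂.mono ({u} : Finset V)ᶜ univ (subset_univ _)
      rw [card_singleton] at h3
      push_cast at h3
      linarith
  by_cases hub : u = b
  · subst hub
    refine ⟨{u}ᶜ, by simp, ?_, ?_⟩
    · apply one _ (by simpa using hab) (by simp)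
      rw [compl_compl]
      have h3 := h₂.le_card {u}
      have h4 := h₁.mono ({u} : Finset V)ᶜ univ (subset_univ _)
      rw [card_singleton] at h3
      push_cast at h3
      linarith
    · have h3 : insert u ({u} : Finset V)ᶜ = univ := by
        ext v; simp only [mem_insert, mem_compl, mem_singleton, mem_univ, iff_true]; tauto
      rw [h3]
      unfold Tight
      rw [compl_univ, h₂.zero, hr, univ_inter, univ_inter, card_singleton, card_singleton]
      ring
  -- the element `b` in the first family
  obtain ⟨T₀, haT₀, hbT₀, t1, t2, hint⟩ := sep_one h₁ h₂ hr ha p1 p2 uP b hab.symm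
  have first : ∀ T : Finset V, a ∉ T → b ∉ T → TA r₁ r₂ a T →
      r₁ (insert a T) + r₂ (insert a T)ᶜ ≤ r₁ univ + 1 := by
    intro T h3 h4 h5
    unfold TA at h5
    have h6 := h₂.mono (insert a T)ᶜ (insert a Tᶜ) (by
      intro v hv
      simp only [mem_compl, mem_insert, not_or] at hv
      simp only [mem_insert, mem_compl]
      exact Or.inr hv.2)
    linarith
  by_cases huT : u ∈ T₀
  · obtain ⟨T, haT, huT', s1, s2, hint'⟩ := sep_one h₁ h₂ hr ha p1 p2 uP u hua
    have m1 : TA r₁ r₂ a (T₀ ∩ T) := hint T s1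
    have m2 : TA r₁ r₂ a (T₀ ∩ insert u T) := hint _ s2
    have e1 : T₀ ∩ insert u T = insert u (T₀ ∩ T) := by
      ext v; simp only [mem_inter, mem_insert]
      constructor
      · tauto
      · rintro (rfl | h) <;> tauto
    rw [e1] at m2
    refine ⟨insert a (T₀ ∩ T), ?_, ?_, ?_⟩
    · simp only [mem_insert, mem_inter, not_or]
      exact ⟨hua, fun h => huT' h.2⟩
    · apply one
      · exact mem_insert_self _ _
      · simp only [mem_insert, mem_inter, not_or]
        exact ⟨hab.symm, fun h => hbT₀ h.1⟩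
      · apply first _ _ _ m1
        · exact fun h => haT₀ (mem_inter.1 h).1
        · exact fun h => hbT₀ (mem_inter.1 h).1
    · rw [insert_comm]
      apply one
      · exact mem_insert_self _ _
      · simp only [mem_insert, mem_inter, not_or]
        exact ⟨hab.symm, fun h => hub h.symm, fun h => hbT₀ h.1⟩
      · apply first _ _ _ m2
        · simp only [mem_insert, mem_inter, not_or]
          exact ⟨fun h => hua h.symm, fun h => haT₀ h.1⟩
        · simp only [mem_insert, mem_inter, not_or]
          exact ⟨fun h => hub h.symm, fun h => hbT₀ h.1⟩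
  · -- `δ = 0`
    have base : ∀ T : Finset V, TA r₁ r₂ a T → r₁ (insert a T) = (insert a T ∩ insert a E).card := by
      intro T hT
      unfold TA at hT
      have h3 := card_inter_le h₁ p1 (insert a T)
      have h4 := card_inter_le h₂ p2 (insert a Tᶜ)
      have h6 := two_count (mem_insert_self a E) T
      linarith
    have i1 : r₁ (insert b (insert a T₀)) = r₁ (insert a T₀) := by
      have h3 := base _ t1
      have h4 := base _ t2
      have h5 : insert a (insert b T₀) ∩ insert a E = insert a T₀ ∩ insert a E := by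
        ext v; simp only [mem_inter, mem_insert]
        constructor
        · rintro ⟨h6 | h6 | h6, h7⟩
          · exact ⟨Or.inl h6, h7⟩
          · exfalso
            rw [h6] at h7
            rcases h7 with h7 | h7
            · exact hab h7.symm
            · exact hb h7
          · exact ⟨Or.inr h6, h7⟩
        · tauto
      rw [h5] at h4
      rw [insert_comm, h4, h3]
    have i2 := first T₀ haT₀ hbT₀ t1
    have second : ∀ S : Finset V, b ∉ S → TA r₁ r₂ b S →
        r₁ (insert a (T₀ ∪ S)) + r₂ (insert a (T₀ ∪ S))ᶜ ≤ r₁ univ + 1 := by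
      intro S hbS hS
      unfold TA at hS
      have e0 : insert b Sᶜ = Sᶜ := insert_eq_of_mem (mem_compl.2 hbS)
      rw [e0] at hS
      have h3 := h₁.sub (insert b (insert a T₀)) (insert b S)
      have h4 := h₂.sub (insert a T₀)ᶜ Sᶜ
      rw [← compl_inter, ← compl_union] at h4
      have e1 : insert b (insert a T₀) ∩ insert b S = insert b (insert a T₀ ∩ S) := by
        ext v; simp only [mem_inter, mem_insert]; tauto
      have e2 : insert a T₀ ∪ S = insert a (T₀ ∪ S) := by rw [insert_union]
      rw [e1] at h3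
      rw [e2] at h4
      -- the inequality for the second common base
      have hbY : b ∉ insert a T₀ ∩ S := fun h => hbS (mem_inter.1 h).2
      have h5 := card_inter_le h₁ q1 (insert b (insert a T₀ ∩ S))
      have h6 := card_inter_le h₂ q2 (insert a T₀ ∩ S)ᶜ
      have h8 := two_count (mem_insert_self b E) (insert a T₀ ∩ S)
      rw [insert_eq_of_mem (mem_compl.2 hbY)] at h8
      have h9 := h₁.mono (insert a (T₀ ∪ S)) (insert b (insert a T₀) ∪ insert b S) (by
        intro v hv
        simp only [mem_insert, mem_union] at hv ⊢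
        tauto)
      linarith
    obtain ⟨S, hbS, huS, s1, s2, _⟩ := sep_one h₁ h₂ hr hb q1 q2 uQ u hub
    refine ⟨insert a (T₀ ∪ S), ?_, ?_, ?_⟩
    · simp only [mem_insert, mem_union, not_or]
      exact ⟨hua, huT, huS⟩
    · apply one
      · exact mem_insert_self _ _
      · simp only [mem_insert, mem_union, not_or]
        exact ⟨hab.symm, hbT₀, hbS⟩
      · exact second S hbS s1
    · have e5 : insert u (insert a (T₀ ∪ S)) = insert a (T₀ ∪ insert u S) := by
        ext v; simp only [mem_insert, mem_union]; tauto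
      rw [e5]
      apply one
      · exact mem_insert_self _ _
      · simp only [mem_insert, mem_union, not_or]
        exact ⟨hab.symm, hbT₀, fun h => hub h.symm, hbS⟩
      · apply second _ _ s2
        simp only [mem_insert, not_or]
        exact ⟨fun h => hub h.symm, hbS⟩

end H12.SBO
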