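import Pool.Agent.H12.SBO.Vert

/-!
Opposite vertices of `B(M₁) - B(M₂)`: two disjoint common bases, two common bases covering the
ground set, rank at most two, corank at most two.
-/

namespace H12.SBO

open Finset H31.Frank

variable {V : Type*} [Fintype V] [DecidableEq V]

/-- basis exchange -/
def Ex (F : Finset V → Prop) : Prop :=
  ∀ B B', F B → F B' → ∀ a ∈ B \ B', ∃ e ∈ B' \ B, F (insert e (B.erase a))

theorem ex_base (M : Matroid V) : Ex fun B : Finset V => M.IsBase (B : Set V) := by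
  intro B B' h1 h2 a ha
  obtain ⟨e, he, h3⟩ := h1.exchange h2 (by
    rw [← coe_sdiff]; exact mem_coe.2 ha)
  refine ⟨e, ?_, ?_⟩
  · rw [← mem_coe, coe_sdiff]; exact he
  · simpa only [coe_insert, coe_erase] using h3

theorem ex_compl (M : Matroid V) (hE : M.E = Set.univ) :
    Ex fun B : Finset V => M.IsBase ((Bᶜ : Finset V) : Set V) := by
  have h : ∀ B : Finset V, M.IsBase ((Bᶜ : Finset V) : Set V) ↔ M✶.IsBase (B : Set V) := by
    intro B
    rw [Matroid.dual_isBase_iff (by rw [hE]; exact Set.subset_univ _), hE, coe_compl,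
      Set.compl_eq_univ_diff]
  intro B B' h1 h2 a ha
  rw [h] at h1 h2
  obtain ⟨e, he, h3⟩ := ex_base M✶ B B' h1 h2 a ha
  exact ⟨e, he, (h _).2 h3⟩

omit [Fintype V] in
theorem core {F₁ F₂ : Finset V → Prop} (h1 : Ex F₁) (h2 : Ex F₂) {x z a b : V} (hxz : x ≠ z)
    (hxa : x ≠ a) (hxb : x ≠ b) (hza : z ≠ a) (hzb : z ≠ b) (hab : a ≠ b)
    (e1 : F₁ {x, a}) (e2 : F₁ {x, b}) (e3 : F₁ {z, a})
    (g1 : F₂ {x, a}) (g2 : F₂ {x, b}) (g3 : F₂ {z, b}) :
    ∃ P Q : Finset V, F₁ P ∧ F₂ P ∧ F₁ Q ∧ F₂ Q ∧ Disjoint P Q := by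
  by_cases c1 : F₁ {z, b}
  · refine ⟨{z, b}, {x, a}, c1, g3, e1, g1, ?_⟩
    rw [disjoint_left]; intro v hv hv2
    simp only [mem_insert, mem_singleton] at hv hv2
    rcases hv with rfl | rfl <;> rcases hv2 with h | h <;> simp_all
  by_cases c2 : F₂ {z, a}
  · refine ⟨{z, a}, {x, b}, e3, c2, e2, g2, ?_⟩
    rw [disjoint_left]; intro v hv hv2
    simp only [mem_insert, mem_singleton] at hv hv2
    rcases hv with rfl | rfl <;> rcases hv2 with h | h <;> simp_all
  -- `{z, x}` and `{a, b}`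
  have k1 : F₁ {z, x} := by
    obtain ⟨e, he, h3⟩ := h1 {z, a} {x, b} e3 e2 a (by
      simp only [mem_sdiff, mem_insert, mem_singleton]; tauto)
    have h4 : ({z, a} : Finset V).erase a = {z} := by
      ext v; simp only [mem_erase, mem_insert, mem_singleton]
      constructor
      · tauto
      · rintro rfl; exact ⟨hza, Or.inl rfl⟩
    rw [h4] at h3
    simp only [mem_sdiff, mem_insert, mem_singleton] at he
    rcases he.1 with rfl | rfl
    · rwa [pair_comm] at h3
    · rw [pair_comm] at h3; exact absurd h3 c1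
  have k2 : F₁ {a, b} := by
    obtain ⟨e, he, h3⟩ := h1 {x, b} {z, a} e2 e3 x (by
      simp only [mem_sdiff, mem_insert, mem_singleton]; tauto)
    have h4 : ({x, b} : Finset V).erase x = {b} := by
      ext v; simp only [mem_erase, mem_insert, mem_singleton]
      constructor
      · tauto
      · rintro rfl; exact ⟨fun h => hxb h.symm, Or.inr rfl⟩
    rw [h4] at h3
    simp only [mem_sdiff, mem_insert, mem_singleton] at he
    rcases he.1 with rfl | rfl
    · exact absurd h3 c1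
    · exact h3
  have k3 : F₂ {z, x} := by
    obtain ⟨e, he, h3⟩ := h2 {z, b} {x, a} g3 g1 b (by
      simp only [mem_sdiff, mem_insert, mem_singleton]
      refine ⟨Or.inr trivial, ?_⟩
      rintro (h | h)
      · exact hxb h.symm
      · exact hab h.symm)
    have h4 : ({z, b} : Finset V).erase b = {z} := by
      ext v; simp only [mem_erase, mem_insert, mem_singleton]
      constructor
      · tauto
      · rintro rfl; exact ⟨hzb, Or.inl rfl⟩
    rw [h4] at h3
    simp only [mem_sdiff, mem_insert, mem_singleton] at he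
    rcases he.1 with rfl | rfl
    · rwa [pair_comm] at h3
    · rw [pair_comm] at h3; exact absurd h3 c2
  have k4 : F₂ {a, b} := by
    obtain ⟨e, he, h3⟩ := h2 {x, a} {z, b} g1 g3 x (by
      simp only [mem_sdiff, mem_insert, mem_singleton]; tauto)
    have h4 : ({x, a} : Finset V).erase x = {a} := by
      ext v; simp only [mem_erase, mem_insert, mem_singleton]
      constructor
      · tauto
      · rintro rfl; exact ⟨fun h => hxa h.symm, Or.inr rfl⟩
    rw [h4] at h3
    simp only [mem_sdiff, mem_insert, mem_singleton] at he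
    rcases he.1 with rfl | rfl
    · exact absurd h3 c2
    · rwa [pair_comm] at h3
  refine ⟨{z, x}, {a, b}, k1, k3, k2, k4, ?_⟩
  rw [disjoint_left]; intro v hv hv2
  simp only [mem_insert, mem_singleton] at hv hv2
  rcases hv with rfl | rfl <;> rcases hv2 with h | h <;> simp_all

/-- both `χ_A - χ_N` and its negative are vertices -/
def Good (M₁ M₂ : Matroid V) (A N : Finset V) : Prop :=
  vec A N ∈ Set.extremePoints ℝ (Base (dif M₁ M₂)) ∧
    vec N A ∈ Set.extremePoints ℝ (Base (dif M₁ M₂))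

variable {M₁ M₂ : Matroid V}

theorem vec_union (A N C : Finset V) (h1 : Disjoint A C) (h2 : Disjoint N C) :
    vec (A ∪ C) (N ∪ C) = vec A N := by
  funext i
  unfold vec
  have h3 : i ∈ C → i ∉ A ∧ i ∉ N := fun h =>
    ⟨fun h4 => (disjoint_left.1 h1) h4 h, fun h4 => (disjoint_left.1 h2) h4 h⟩
  by_cases hC : i ∈ C
  · simp [hC, h3 hC]
  · simp [hC]

theorem Compl.mem (hr : rk M₁ univ = rk M₂ univ) {A N C : Finset V}
    (h : Compl (rk M₁) (rk M₂) A N C) : vec A N ∈ Base (dif M₁ M₂) := by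
  obtain ⟨h1, h2, h3⟩ := h
  have h4 : ∀ v, v ∈ C → v ∉ A ∧ v ∉ N := fun v h5 => by
    have := h1 h5
    simpa only [mem_compl, mem_union, not_or] using this
  rw [← vec_union A N C (disjoint_left.2 fun v h5 h6 => (h4 v h6).1 h5)
    (disjoint_left.2 fun v h5 h6 => (h4 v h6).2 h5)]
  exact mem_of_bases M₁ M₂ hr h2 h3

theorem good_of_unique (hr : rk M₁ univ = rk M₂ univ) {A N C₀ C₁ : Finset V} (hd : Disjoint A N)
    (h0 : Compl (rk M₁) (rk M₂) A N C₀) (h1 : Compl (rk M₁) (rk M₂) N A C₁)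
    (hu0 : ∀ C, Compl (rk M₁) (rk M₂) A N C → C = C₀)
    (hu1 : ∀ C, Compl (rk M₁) (rk M₂) N A C → C = C₁) : Good M₁ M₂ A N :=
  ⟨extreme_vec M₁ M₂ hr hd (h0.mem hr) fun C C' h2 h3 => (hu0 C h2).trans (hu0 C' h3).symm,
    extreme_vec M₁ M₂ hr hd.symm (h1.mem hr) fun C C' h2 h3 => (hu1 C h2).trans (hu1 C' h3).symm⟩

/-- common bases -/
def CB (M₁ M₂ : Matroid V) (P : Finset V) : Prop := IsB (rk M₁) P ∧ IsB (rk M₂) P

theorem CB.card_eq {P Q : Finset V} (hP : CB M₁ M₂ P) (hQ : CB M₁ M₂ Q) : P.card = Q.card := by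
  have h1 := hP.1.1
  have h2 := hP.1.2
  have h3 := hQ.1.1
  have h4 := hQ.1.2
  have : (P.card : ℤ) = Q.card := by linarith
  exact_mod_cast this

theorem compl_of_CB {P Q : Finset V} (hP : CB M₁ M₂ P) (hQ : CB M₁ M₂ Q) :
    Compl (rk M₁) (rk M₂) (P \ Q) (Q \ P) (P ∩ Q) := by
  refine ⟨?_, ?_, ?_⟩
  · intro v hv
    simp only [mem_inter, mem_compl, mem_union, mem_sdiff] at hv ⊢
    tauto
  · have : P \ Q ∪ P ∩ Q = P := by ext v; simp only [mem_union, mem_sdiff, mem_inter]; tauto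
    rw [this]; exact hP.1
  · have : Q \ P ∪ P ∩ Q = Q := by ext v; simp only [mem_union, mem_sdiff, mem_inter]; tauto
    rw [this]; exact hQ.2

theorem Compl.card {A N C : Finset V} (h : Compl (rk M₁) (rk M₂) A N C) :
    (A.card : ℤ) + C.card = rk M₁ univ := by
  have h1 := h.2.1.1
  have h2 := h.2.1.2
  rw [card_union_of_disjoint] at h1
  · push_cast at h1; linarith
  · rw [disjoint_left]
    intro v h3 h4
    have := h.1 h4
    simp only [mem_compl, mem_union, not_or] at this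
    exact this.1 h3

theorem uniq_of_cover {P Q : Finset V} (hP : CB M₁ M₂ P) (hQ : CB M₁ M₂ Q)
    (h : Disjoint P Q ∨ P ∪ Q = univ) (C : Finset V)
    (hC : Compl (rk M₁) (rk M₂) (P \ Q) (Q \ P) C) : C = P ∩ Q := by
  have h1 := hC.card
  have h2 := (compl_of_CB hP hQ).card
  have h3 : C.card = (P ∩ Q).card := by
    have : (C.card : ℤ) = (P ∩ Q).card := by linarith
    exact_mod_cast this
  rcases h with h | h
  · rw [disjoint_iff_inter_eq_empty.1 h] at h3 ⊢
    rw [card_empty, card_eq_zero] at h3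
    exact h3
  · refine eq_of_subset_of_card_le ?_ h3.symm.le
    intro v hv
    have h4 := hC.1 hv
    have h5 : v ∈ P ∪ Q := by rw [h]; exact mem_univ _
    simp only [mem_compl, mem_union, mem_sdiff, mem_inter] at h4 h5 ⊢
    tauto

/-- two common bases which are disjoint or cover the ground set -/
theorem good_of_cover (hr : rk M₁ univ = rk M₂ univ) {P Q : Finset V} (hP : CB M₁ M₂ P)
    (hQ : CB M₁ M₂ Q) (h : Disjoint P Q ∨ P ∪ Q = univ) : Good M₁ M₂ (P \ Q) (Q \ P) := by
  refine good_of_unique hr (disjoint_left.2 fun v h1 h2 => ?_) (compl_of_CB hP hQ)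
    (compl_of_CB hQ hP) (uniq_of_cover hP hQ h) (uniq_of_cover hQ hP ?_)
  · exact (mem_sdiff.1 h2).2 (mem_sdiff.1 h1).1
  · rcases h with h | h
    · exact Or.inl h.symm
    · exact Or.inr (by rw [union_comm]; exact h)

/-- there is a common base -/
theorem exists_CB (hr : rk M₁ univ = rk M₂ univ) (h0 : (0 : V → ℝ) ∈ Base (dif M₁ M₂)) :
    ∃ P, CB M₁ M₂ P := by
  have h1 : vec (∅ : Finset V) ∅ = 0 := by funext i; simp [vec]
  rw [← h1, mem_iff M₁ M₂ hr] at h0
  obtain ⟨C, hC⟩ := Dat.exists_compl (⟨isRk M₁, isRk M₂, hr, disjoint_empty_left _, rfl, h0.1⟩ :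
    Dat (rk M₁) (rk M₂) ∅ ∅)
  refine ⟨C, ?_, ?_⟩
  · simpa using hC.2.1
  · simpa using hC.2.2

/-- rank at most two -/
theorem good_rank_two (hE₁ : M₁.E = Set.univ) (hE₂ : M₂.E = Set.univ)
    (hr : rk M₁ univ = rk M₂ univ) (h2 : rk M₁ univ ≤ 2) {P : Finset V} (hP : CB M₁ M₂ P) :
    ∃ A N, Good M₁ M₂ A N := by
  by_contra hno
  have hcb : ∀ B, CB M₁ M₂ B ↔ M₁.IsBase (B : Set V) ∧ M₂.IsBase (B : Set V) := fun B => by
    unfold CB; rw [isB_iff M₁ hE₁, isB_iff M₂ hE₂]
  have hnd : ∀ P Q, CB M₁ M₂ P → CB M₁ M₂ Q → ¬ Disjoint P Q := fun P Q h3 h4 h5 =>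
    hno ⟨_, _, good_of_cover hr h3 h4 (Or.inl h5)⟩
  -- a second common base
  obtain ⟨Q, hQ, hPQ⟩ : ∃ Q, CB M₁ M₂ Q ∧ Q ≠ P := by
    by_contra h3
    push Not at h3
    apply hno
    refine ⟨∅, ∅, good_of_unique hr (disjoint_empty_left _) (C₀ := P) (C₁ := P) ?_ ?_ ?_ ?_⟩
    · exact ⟨by simp, by simpa using hP.1, by simpa using hP.2⟩
    · exact ⟨by simp, by simpa using hP.1, by simpa using hP.2⟩
    · intro C hC
      exact h3 C ⟨by simpa using hC.2.1, by simpa using hC.2.2⟩
    · intro C hC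
      exact h3 C ⟨by simpa using hC.2.1, by simpa using hC.2.2⟩
  have hcard : P.card ≤ 2 := by
    have h3 := hP.1.1
    have h4 := hP.1.2
    have : (P.card : ℤ) ≤ 2 := by linarith
    exact_mod_cast this
  have hcard' := hQ.card_eq hP
  obtain ⟨x, hx⟩ : (P ∩ Q).Nonempty := by
    rw [nonempty_iff_ne_empty]
    intro h3
    exact hnd P Q hP hQ (disjoint_iff_inter_eq_empty.2 h3)
  rw [mem_inter] at hx
  obtain ⟨a, haP, haQ⟩ : ∃ a ∈ P, a ∉ Q := by
    by_contra h3
    push Not at h3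
    exact hPQ (eq_of_subset_of_card_le h3 hcard'.le).symm
  obtain ⟨b, hbQ, hbP⟩ : ∃ b ∈ Q, b ∉ P := by
    by_contra h3
    push Not at h3
    exact hPQ (eq_of_subset_of_card_le h3 hcard'.symm.le)
  have hxa : x ≠ a := by rintro rfl; exact haQ hx.2
  have hxb : x ≠ b := by rintro rfl; exact hbP hx.1
  have hab : a ≠ b := by rintro rfl; exact haQ hbQ
  have hP2 : P = {x, a} := by
    symm
    apply eq_of_subset_of_card_le
    · intro v hv
      simp only [mem_insert, mem_singleton] at hv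
      rcases hv with rfl | rfl
      · exact hx.1
      · exact haP
    · rw [card_pair hxa]; exact hcard
  have hQ2 : Q = {x, b} := by
    symm
    apply eq_of_subset_of_card_le
    · intro v hv
      simp only [mem_insert, mem_singleton] at hv
      rcases hv with rfl | rfl
      · exact hx.2
      · exact hbQ
    · rw [card_pair hxb, hcard']; exact hcard
  have hrk : rk M₁ univ = 2 := by
    have h3 := hP.1.1
    have h4 := hP.1.2
    rw [hP2, card_pair hxa] at h3
    rw [hP2] at h4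
    push_cast at h3
    linarith
  -- completions are unique
  have key : ∀ a b : V, a ≠ b → x ≠ a → x ≠ b → CB M₁ M₂ {x, a} → CB M₁ M₂ {x, b} →
      ∀ C, Compl (rk M₁) (rk M₂) {a} {b} C → C = {x} := by
    intro a b hab hxa hxb hPa hPb C hC
    have h3 := hC.card
    rw [card_singleton, hrk] at h3
    have h4 : C.card = 1 := by push_cast at h3; omega
    obtain ⟨z, rfl⟩ := card_eq_one.1 h4
    by_contra h5
    have hxz : x ≠ z := fun h6 => h5 (by rw [h6])
    have h6 := hC.1 (mem_singleton_self z)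
    simp only [mem_compl, mem_union, mem_singleton, not_or] at h6
    have h7 := (isB_iff M₁ hE₁ _).1 hC.2.1
    have h8 := (isB_iff M₂ hE₂ _).1 hC.2.2
    have e7 : ({a} : Finset V) ∪ {z} = {z, a} := by
      ext v; simp only [mem_union, mem_singleton, mem_insert]; tauto
    have e8 : ({b} : Finset V) ∪ {z} = {z, b} := by
      ext v; simp only [mem_union, mem_singleton, mem_insert]; tauto
    rw [e7] at h7
    rw [e8] at h8
    obtain ⟨P', Q', q1, q2, q3, q4, q5⟩ := core (ex_base M₁) (ex_base M₂) hxz hxa hxb h6.1 h6.2 hab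
      ((hcb _).1 hPa).1 ((hcb _).1 hPb).1 h7 ((hcb _).1 hPa).2 ((hcb _).1 hPb).2 h8
    exact hnd P' Q' ((hcb _).2 ⟨q1, q2⟩) ((hcb _).2 ⟨q3, q4⟩) q5
  rw [hP2] at hP
  rw [hQ2] at hQ
  apply hno
  have ed : ∀ a b : V, x ≠ a → x ≠ b → a ≠ b → CB M₁ M₂ {x, a} → CB M₁ M₂ {x, b} →
      Compl (rk M₁) (rk M₂) {a} {b} {x} := by
    intro a b hxa hxb hab h3 h4
    refine ⟨?_, ?_, ?_⟩
    · intro v hv
      simp only [mem_compl, mem_union, mem_singleton, not_or] at hv ⊢
      rw [hv]; exact ⟨hxa, hxb⟩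
    · have : ({a} : Finset V) ∪ {x} = {x, a} := by
        ext v; simp only [mem_union, mem_singleton, mem_insert]; tauto
      rw [this]; exact h3.1
    · have : ({b} : Finset V) ∪ {x} = {x, b} := by
        ext v; simp only [mem_union, mem_singleton, mem_insert]; tauto
      rw [this]; exact h4.2
  exact ⟨{a}, {b}, good_of_unique hr (by simpa using hab) (ed a b hxa hxb hab hP hQ)
    (ed b a hxb hxa hab.symm hQ hP) (key a b hab hxa hxb hP hQ) (key b a hab.symm hxb hxa hQ hP)⟩

end H12.SBO
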