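import Pool.Agent.H12.SBO.Main

/-!
The vertices of the difference of two matroid base polytopes have coordinates `0`, `1`, `-1`.
-/

namespace H12.SBO

open Finset H31.Frank

variable {V : Type*} [Fintype V] [DecidableEq V]

/-- vertices of integral base polyhedra are integral -/
theorem int_of_extreme {f : Finset V → ℤ} (h0 : f ∅ = 0)
    (hs : ∀ X Y, f (X ∪ Y) + f (X ∩ Y) ≤ f X + f Y)
    {x : V → ℝ} (hx : x ∈ Set.extremePoints ℝ (Base fun X => (f X : ℝ))) (u : V) :
    ∃ z : ℤ, x u = z := by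
  classical
  rw [mem_extremePoints] at hx
  obtain ⟨hb, hex⟩ := hx
  have hun : ∀ X Y : Finset V, ∑ i ∈ X ∪ Y, x i + ∑ i ∈ X ∩ Y, x i = ∑ i ∈ X, x i + ∑ i ∈ Y, x i :=
    fun X Y => sum_union_inter
  have tU : ∀ X Y : Finset V, ∑ i ∈ X, x i = f X → ∑ i ∈ Y, x i = f Y →
      ∑ i ∈ X ∪ Y, x i = f (X ∪ Y) ∧ ∑ i ∈ X ∩ Y, x i = f (X ∩ Y) := by
    intro X Y h1 h2
    have h3 := hb.1 (X ∪ Y)
    have h4 := hb.1 (X ∩ Y)
    have h5 := hun X Y
    have h6 : ((f (X ∪ Y) : ℝ)) + f (X ∩ Y) ≤ f X + f Y := by exact_mod_cast hs X Y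
    simp only at h3 h4
    constructor <;> linarith
  have tI : ∀ s : Finset (Finset V), (∀ X ∈ s, ∑ i ∈ X, x i = f X) →
      ∑ i ∈ univ.filter (fun v => ∀ X ∈ s, v ∈ X), x i = f (univ.filter fun v => ∀ X ∈ s, v ∈ X) := by
    intro s
    induction s using Finset.induction_on with
    | empty =>
      intro _
      have : (univ.filter fun v : V => ∀ X ∈ (∅ : Finset (Finset V)), v ∈ X) = univ := by
        ext v; simp
      rw [this]; exact hb.2
    | insert Y s hY ih =>
      intro h1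
      have h2 := ih fun X hX => h1 X (mem_insert_of_mem hX)
      have h3 := (tU _ _ (h1 Y (mem_insert_self _ _)) h2).2
      have h4 : Y ∩ (univ.filter fun v => ∀ X ∈ s, v ∈ X) =
          univ.filter fun v => ∀ X ∈ insert Y s, v ∈ X := by
        ext v
        simp only [mem_inter, mem_filter, mem_univ, true_and, mem_insert, forall_eq_or_imp]
      rwa [h4] at h3
  have tS : ∀ s : Finset (Finset V), (∀ X ∈ s, ∑ i ∈ X, x i = f X) →
      ∃ S : Finset V, ∑ i ∈ S, x i = f S ∧ ∀ v, (v ∈ S ↔ ∃ X ∈ s, v ∈ X) := by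
    intro s
    induction s using Finset.induction_on with
    | empty =>
      intro _
      exact ⟨∅, by rw [h0]; simp, fun v => by simp⟩
    | insert Y s hY ih =>
      intro h1
      obtain ⟨S, h2, h3⟩ := ih fun X hX => h1 X (mem_insert_of_mem hX)
      refine ⟨Y ∪ S, (tU _ _ (h1 Y (mem_insert_self _ _)) h2).1, fun v => ?_⟩
      rw [mem_union, h3, exists_mem_insert]
  -- the smallest tight set containing `w`
  obtain ⟨T, hTt, hTw, hTm⟩ : ∃ T : V → Finset V, (∀ w, ∑ i ∈ T w, x i = f (T w)) ∧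
      (∀ w, w ∈ T w) ∧ ∀ w X, w ∈ X → ∑ i ∈ X, x i = f X → T w ⊆ X := by
    refine ⟨fun w => univ.filter fun v => ∀ X ∈ univ.filter
      (fun X : Finset V => w ∈ X ∧ ∑ i ∈ X, x i = f X), v ∈ X, ?_, ?_, ?_⟩
    · intro w
      exact tI _ fun X hX => (mem_filter.1 hX).2.2
    · intro w
      rw [mem_filter]
      exact ⟨mem_univ _, fun X hX => (mem_filter.1 hX).2.1⟩
    · intro w X h1 h2 v hv
      exact (mem_filter.1 hv).2 X (mem_filter.2 ⟨mem_univ _, h1, h2⟩)
  -- the largest tight set in `T u \ {u}`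
  obtain ⟨S, hSt, hSe, hSm⟩ : ∃ S : Finset V, ∑ i ∈ S, x i = f S ∧ S ⊆ (T u).erase u ∧
      ∀ X ⊆ (T u).erase u, ∑ i ∈ X, x i = f X → X ⊆ S := by
    obtain ⟨S, h1, h2⟩ := tS (univ.filter fun X : Finset V => X ⊆ (T u).erase u ∧
      ∑ i ∈ X, x i = f X) fun X hX => (mem_filter.1 hX).2.2
    refine ⟨S, h1, ?_, ?_⟩
    · intro v hv
      obtain ⟨X, h3, h4⟩ := (h2 v).1 hv
      exact (mem_filter.1 h3).2.1 h4
    · intro X h3 h4 v hv
      exact (h2 v).2 ⟨X, mem_filter.2 ⟨mem_univ _, h3, h4⟩, hv⟩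
  have hSs : S = (T u).erase u := by
    apply Subset.antisymm hSe
    · intro v hv
      by_contra hvS
      obtain ⟨hvu, hvT⟩ := mem_erase.1 hv
      have h1 : T v ⊆ T u := hTm v _ hvT (hTt u)
      have h2 : u ∈ T v := by
        by_contra h3
        have h4 : T v ⊆ (T u).erase u := by
          intro i hi
          rw [mem_erase]
          refine ⟨fun h5 => h3 ?_, h1 hi⟩
          rw [← h5]; exact hi
        have h5 : T v ⊆ S := hSm (T v) h4 (hTt v)
        exact hvS (h5 (hTw v))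
      have h3 : ∀ X : Finset V, ∑ i ∈ X, x i = f X → (u ∈ X ↔ v ∈ X) := by
        intro X hX
        constructor
        · intro h4; exact hTm u X h4 hX hvT
        · intro h4; exact hTm v X h4 hX h2
      -- perturb
      obtain ⟨ε, hε, hε2⟩ : ∃ ε > 0, ∀ X : Finset V, ∑ i ∈ X, x i ≠ f X →
          ∑ i ∈ X, x i + ε ≤ f X := by
        set s := univ.filter fun X : Finset V => ∑ i ∈ X, x i ≠ f X with hs'
        by_cases hne : s.Nonempty
        · refine ⟨s.inf' hne fun X => (f X : ℝ) - ∑ i ∈ X, x i, ?_, ?_⟩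
          · rw [gt_iff_lt, lt_inf'_iff]
            intro X hX
            have h5 := (mem_filter.1 hX).2
            exact sub_pos.2 (lt_of_le_of_ne (hb.1 X) h5)
          · intro X hX
            have h5 := inf'_le (fun X => (f X : ℝ) - ∑ i ∈ X, x i)
              (show X ∈ s from mem_filter.2 ⟨mem_univ _, hX⟩)
            linarith
        · refine ⟨1, one_pos, fun X hX => ?_⟩
          exact absurd ⟨X, mem_filter.2 ⟨mem_univ _, hX⟩⟩ hne
      set d : V → ℝ := fun i => (if i = u then 1 else 0) - (if i = v then 1 else 0) with hd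
      have hds : ∀ X : Finset V, ∑ i ∈ X, d i = (if u ∈ X then 1 else 0) - (if v ∈ X then 1 else 0) := by
        intro X
        simp only [hd, sum_sub_distrib, sum_ite_eq']
      have hmem : ∀ c : ℝ, |c| ≤ ε → (x + c • d) ∈ Base fun X => (f X : ℝ) := by
        intro c hc
        have e1 : ∀ X : Finset V, ∑ i ∈ X, (x + c • d) i = ∑ i ∈ X, x i + c * ∑ i ∈ X, d i := by
          intro X
          simp only [Pi.add_apply, Pi.smul_apply, smul_eq_mul, sum_add_distrib, mul_sum]
        constructor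
        · intro X
          rw [e1, hds]
          by_cases ht : ∑ i ∈ X, x i = f X
          · have h5 := h3 X ht
            by_cases h6 : u ∈ X
            · simp only [h6, h5.1 h6, if_true, sub_self, mul_zero, add_zero]; exact ht.le
            · have h7 : v ∉ X := fun h8 => h6 (h5.2 h8)
              simp only [h6, h7, if_false, sub_self, mul_zero, add_zero]; exact ht.le
          · have h5 := hε2 X ht
            have h6 := abs_le.1 hc
            show _ ≤ (f X : ℝ)
            split_ifs <;> linarith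
        · rw [e1, hds]
          simp only [mem_univ, if_true, sub_self, mul_zero, add_zero]
          exact hb.2
      have h5 := hmem ε (by rw [abs_of_pos hε])
      have h6 := hmem (-ε) (by rw [abs_neg, abs_of_pos hε])
      have h7 := (hex _ h5 _ h6 ⟨1 / 2, 1 / 2, by norm_num, by norm_num, by norm_num, by
        funext i
        simp only [Pi.add_apply, Pi.smul_apply, smul_eq_mul]
        ring⟩).1
      have h8 := congrFun h7 u
      simp only [Pi.add_apply, Pi.smul_apply, smul_eq_mul, hd, if_true] at h8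
      rw [if_neg (fun h9 => hvu h9.symm)] at h8
      linarith
  refine ⟨f (T u) - f S, ?_⟩
  have h1 := hTt u
  rw [← insert_erase (hTw u), sum_insert (notMem_erase _ _), ← hSs, hSt, hSs,
    insert_erase (hTw u)] at h1
  rw [hSs]
  push_cast
  linarith

theorem dif_empty (M₁ M₂ : Matroid V) : dif M₁ M₂ ∅ = 0 := by
  unfold dif
  rw [(isRk M₁).zero, compl_empty]
  simp

theorem dif_sub (M₁ M₂ : Matroid V) (X Y : Finset V) :
    dif M₁ M₂ (X ∪ Y) + dif M₁ M₂ (X ∩ Y) ≤ dif M₁ M₂ X + dif M₁ M₂ Y := by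
  have h1 := (isRk M₁).sub X Y
  have h2 := (isRk M₂).sub Xᶜ Yᶜ
  rw [← compl_inter, ← compl_union] at h2
  have h3 : (rk M₁ (X ∪ Y) : ℝ) + rk M₁ (X ∩ Y) ≤ rk M₁ X + rk M₁ Y := by exact_mod_cast h1
  have h4 : (rk M₂ (X ∩ Y)ᶜ : ℝ) + rk M₂ (X ∪ Y)ᶜ ≤ rk M₂ Xᶜ + rk M₂ Yᶜ := by exact_mod_cast h2
  unfold dif
  linarith

theorem dif_compl_single (M₁ M₂ : Matroid V) (hr : rk M₁ univ = rk M₂ univ) (u : V) :
    dif M₁ M₂ {u}ᶜ ≤ 1 := by
  unfold dif
  rw [compl_compl]
  have h3 : rk M₂ {u} ≤ 1 := by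
    have := (isRk M₂).le_card {u}
    rwa [card_singleton] at this
  have h4 : rk M₁ ({u} : Finset V)ᶜ ≤ rk M₁ univ := (isRk M₁).mono _ _ (subset_univ _)
  have h5 : (rk M₂ {u} : ℝ) ≤ 1 := by exact_mod_cast h3
  have h6 : (rk M₁ ({u} : Finset V)ᶜ : ℝ) ≤ rk M₁ univ := by exact_mod_cast h4
  rw [hr] at h6
  linarith

theorem vert (M₁ M₂ : Matroid V) (hr : rk M₁ univ = rk M₂ univ) {x : V → ℝ}
    (hx : x ∈ Set.extremePoints ℝ (Base (dif M₁ M₂))) (i : V) : x i = 0 ∨ x i = 1 ∨ x i = -1 := by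
  have hb := (mem_extremePoints.1 hx).1
  have e : dif M₁ M₂ = fun X => ((rk M₁ X + rk M₂ Xᶜ - rk M₂ univ : ℤ) : ℝ) := by
    funext X; unfold dif; push_cast; ring
  obtain ⟨z, hz⟩ := int_of_extreme (f := fun X => rk M₁ X + rk M₂ Xᶜ - rk M₂ univ) (by
      have h1 := dif_empty M₁ M₂
      rw [e] at h1
      beta_reduce at h1
      exact_mod_cast h1) (fun X Y => by
      have h1 := dif_sub M₁ M₂ X Y
      rw [e] at h1
      beta_reduce at h1
      exact_mod_cast h1) (by rw [← e]; exact hx) i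
  have h1 : x i ≤ 1 := by
    have h3 := hb.1 {i}
    rw [sum_singleton] at h3
    exact h3.trans (dif_single M₁ M₂ i)
  have h2 : -1 ≤ x i := by
    have h3 := hb.1 {i}ᶜ
    have h4 := h3.trans (dif_compl_single M₁ M₂ hr i)
    have h5 := hb.2
    have h6 : dif M₁ M₂ univ = 0 := by
      unfold dif
      rw [compl_univ, (isRk M₂).zero, hr]; simp
    rw [h6, ← sum_compl_add_sum {i}, sum_singleton] at h5
    linarith
  rw [hz] at h1 h2
  have h3 : z ≤ 1 := by exact_mod_cast h1
  have h4 : -1 ≤ z := by exact_mod_cast h2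
  have h5 : z = 0 ∨ z = 1 ∨ z = -1 := by omega
  rw [hz]
  rcases h5 with rfl | rfl | rfl <;> simp

end H12.SBO
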